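import Pool.Agent.Helper600R2.Expander

/-!
The large component which remains in an expander after the removal of few vertices.
-/

namespace H522R2.LS

open Finset

/-- the three edge types: identity, rotation, `π` -/
def rho {N : ℕ} (π : Equiv.Perm (Fin N)) : Fin 3 → Equiv.Perm (Fin N) :=
  ![1, finRotate N, π]

/-- adjacency outside `D` -/
def adj {N : ℕ} (π : Equiv.Perm (Fin N)) (D : Finset (Fin N)) (i j : Fin N) : Prop :=
  i ∉ D ∧ j ∉ D ∧ ∃ t, rho π t i = j

/-- the component of `i` -/
noncomputable def cls {N : ℕ} (π : Equiv.Perm (Fin N)) (D : Finset (Fin N)) (i : Fin N) :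
    Finset (Fin N) := by
  classical
  exact univ.filter (fun j => Relation.EqvGen (adj π D) i j)

/-- the vertices of the large component -/
noncomputable def core {N : ℕ} (π : Equiv.Perm (Fin N)) (D : Finset (Fin N)) : Finset (Fin N) := by
  classical
  exact univ.filter (fun i => 2 * N < 3 * (cls π D i).card)

lemma mem_cls {N : ℕ} (π : Equiv.Perm (Fin N)) (D : Finset (Fin N)) (i j : Fin N) :
    j ∈ cls π D i ↔ Relation.EqvGen (adj π D) i j := by
  unfold cls; simp

lemma mem_core {N : ℕ} (π : Equiv.Perm (Fin N)) (D : Finset (Fin N)) (i : Fin N) :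
    i ∈ core π D ↔ 2 * N < 3 * (cls π D i).card := by
  unfold core; simp

lemma cls_mono {N : ℕ} (π : Equiv.Perm (Fin N)) (D D' : Finset (Fin N)) (i : Fin N) :
    cls π (D ∪ D') i ⊆ cls π D i := by
  intro j hj
  rw [mem_cls] at hj ⊢
  refine Relation.EqvGen.mono ?_ _ _ hj
  rintro a b ⟨h1, h2, h3⟩
  exact ⟨fun h => h1 (Finset.mem_union_left _ h), fun h => h2 (Finset.mem_union_left _ h), h3⟩

lemma core_mono {N : ℕ} (π : Equiv.Perm (Fin N)) (D D' : Finset (Fin N)) :
    core π (D ∪ D') ⊆ core π D := by
  intro i hi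
  rw [mem_core] at hi ⊢
  have := Finset.card_le_card (cls_mono π D D' i)
  omega

lemma core_conn {N : ℕ} (π : Equiv.Perm (Fin N)) (D : Finset (Fin N)) (i j : Fin N)
    (hi : i ∈ core π D) (hj : j ∈ core π D) : Relation.EqvGen (adj π D) i j := by
  classical
  rw [mem_core] at hi hj
  have h1 := Finset.card_union_add_card_inter (cls π D i) (cls π D j)
  have h2 : (cls π D i ∪ cls π D j).card ≤ N := by
    have := Finset.card_le_univ (cls π D i ∪ cls π D j)
    rwa [Fintype.card_fin] at this
  have h3 : 0 < (cls π D i ∩ cls π D j).card := by omega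
  obtain ⟨x, hx⟩ := Finset.card_pos.mp h3
  rw [Finset.mem_inter, mem_cls, mem_cls] at hx
  exact Relation.EqvGen.trans _ _ _ hx.1 (Relation.EqvGen.symm _ _ hx.2)

lemma core_notMem {N : ℕ} (hN : 2 ≤ N) (π : Equiv.Perm (Fin N)) (D : Finset (Fin N)) (i : Fin N)
    (hi : i ∈ core π D) : i ∉ D := by
  intro h
  rw [mem_core] at hi
  have h1 : ∀ a b, Relation.EqvGen (adj π D) a b → (a = i ↔ b = i) := by
    intro a b hab
    induction hab with
    | rel a b hab =>
      constructor
      · rintro rfl; exact absurd h hab.1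
      · rintro rfl; exact absurd h hab.2.1
    | refl a => exact Iff.rfl
    | symm a b _ ih => exact ih.symm
    | trans a b c _ _ ih1 ih2 => exact ih1.trans ih2
  have h2 : cls π D i ⊆ {i} := by
    intro j hj
    rw [mem_cls] at hj
    rw [Finset.mem_singleton]
    exact (h1 i j hj).mp rfl
  have := Finset.card_le_card h2
  rw [Finset.card_singleton] at this
  omega

/-- unions of components -/
def Closed {N : ℕ} (π : Equiv.Perm (Fin N)) (D U : Finset (Fin N)) : Prop :=
  ∀ i j, adj π D i j → (i ∈ U ↔ j ∈ U)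

lemma closed_bd {N : ℕ} (π : Equiv.Perm (Fin N)) (D U : Finset (Fin N)) (hU : Closed π D U)
    (t : Fin 3) : (Pool.Agent.Helper600R2.bd (rho π t) U).card ≤ 2 * D.card := by
  classical
  have h : Pool.Agent.Helper600R2.bd (rho π t) U ⊆ D ∪ D.image (rho π t).symm := by
    intro i hi
    simp only [Pool.Agent.Helper600R2.bd, Finset.mem_filter, Finset.mem_univ, true_and] at hi
    rw [Finset.mem_union, Finset.mem_image]
    by_contra hcon
    push Not at hcon
    obtain ⟨h1, h2⟩ := hcon
    apply hi
    refine hU i _ ⟨h1, ?_, t, rfl⟩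
    intro h3
    exact h2 _ h3 (by simp)
  calc _ ≤ (D ∪ D.image (rho π t).symm).card := Finset.card_le_card h
    _ ≤ D.card + (D.image (rho π t).symm).card := Finset.card_union_le _ _
    _ ≤ D.card + D.card := Nat.add_le_add_left Finset.card_image_le _
    _ = 2 * D.card := by ring

lemma closed_cls {N : ℕ} (π : Equiv.Perm (Fin N)) (D : Finset (Fin N)) (i : Fin N) :
    Closed π D (cls π D i) := by
  intro a b hab
  rw [mem_cls, mem_cls]
  constructor
  · intro h; exact Relation.EqvGen.trans _ _ _ h (Relation.EqvGen.rel _ _ hab)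
  · intro h; exact Relation.EqvGen.trans _ _ _ h (Relation.EqvGen.symm _ _ (Relation.EqvGen.rel _ _ hab))

lemma closed_union {N : ℕ} (π : Equiv.Perm (Fin N)) (D U V : Finset (Fin N)) (hU : Closed π D U)
    (hV : Closed π D V) : Closed π D (U ∪ V) := by
  intro a b hab
  rw [Finset.mem_union, Finset.mem_union, hU a b hab, hV a b hab]

/-- the large component exists -/
lemma core_nonempty {N : ℕ} (hN : 0 < N) (π : Equiv.Perm (Fin N))
    (hπ : ∀ U : Finset (Fin N), N ≤ 3 * U.card → 3 * U.card ≤ 2 * N →
      N / 60 < (Pool.Agent.Helper600R2.bd (finRotate N) U).card ∨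
      N / 60 < (Pool.Agent.Helper600R2.bd π U).card)
    (D : Finset (Fin N)) (hD : 2 * D.card ≤ N / 60) : (core π D).Nonempty := by
  classical
  have hno : ∀ U : Finset (Fin N), Closed π D U → N ≤ 3 * U.card → ¬ (3 * U.card ≤ 2 * N) := by
    intro U hU h1 h2
    have h3 := closed_bd π D U hU 1
    have h4 := closed_bd π D U hU 2
    rcases hπ U h1 h2 with h | h
    · have : rho π 1 = finRotate N := rfl
      rw [this] at h3
      omega
    · have : rho π 2 = π := rfl
      rw [this] at h4
      omega
  let S : Finset (Finset (Fin N)) := univ.filter (fun U => Closed π D U ∧ 3 * U.card ≤ 2 * N)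
  have hS : S.Nonempty :=
    ⟨∅, Finset.mem_filter.mpr ⟨Finset.mem_univ _, fun i j _ => by simp, by simp⟩⟩
  obtain ⟨U, hU, hmax⟩ := Finset.exists_max_image S Finset.card hS
  obtain ⟨hUc, hU2⟩ := (Finset.mem_filter.mp hU).2
  have hU3 : 3 * U.card < N := by
    by_contra h
    exact hno U hUc (by omega) hU2
  obtain ⟨i, hi⟩ : ∃ i, i ∉ U := by
    by_contra h
    push Not at h
    have : U = univ := Finset.eq_univ_of_forall h
    rw [this, Finset.card_univ, Fintype.card_fin] at hU3
    omega
  have hii : i ∈ cls π D i := by rw [mem_cls]; exact Relation.EqvGen.refl _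
  have hlt : U.card < (U ∪ cls π D i).card := by
    apply Finset.card_lt_card
    rw [Finset.ssubset_iff_of_subset Finset.subset_union_left]
    exact ⟨i, Finset.mem_union_right _ hii, hi⟩
  have hbig : 2 * N < 3 * (U ∪ cls π D i).card := by
    by_contra h
    have : U ∪ cls π D i ∈ S := by
      rw [Finset.mem_filter]
      exact ⟨Finset.mem_univ _, closed_union π D U _ hUc (closed_cls π D i), by omega⟩
    have := hmax _ this
    omega
  have hle := Finset.card_union_le U (cls π D i)
  refine ⟨i, ?_⟩
  rw [mem_core]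
  have := hno _ (closed_cls π D i) (by omega)
  omega

end H522R2.LS
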