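import Mathlib

/-!
Arithmetic circuits with symmetries, and the permanent polynomial.
-/

namespace H522R2.LS

open Finset BigOperators

/-- Kinds of gates: input variable, constant, sum gate, product gate. -/
inductive Kind (K σ : Type)
  | var (x : σ)
  | const (c : K)
  | sum
  | prod

/-- applying a map to the variables -/
def Kind.map {K σ : Type} (f : σ → σ) : Kind K σ → Kind K σ
  | Kind.var x => Kind.var (f x)
  | Kind.const c => Kind.const c
  | Kind.sum => Kind.sum
  | Kind.prod => Kind.prod

/-- An arithmetic circuit over `K` with sum and product gates of arbitrary fan-in.  `G` is the set of gates and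
`wires g h` is the number of wires from `h` into `g`; `rk` certifies that there are no directed cycles. -/
structure Circuit (K σ : Type) where
  G : Type
  [fG : Fintype G]
  [dG : DecidableEq G]
  kind : G → Kind K σ
  wires : G → G → ℕ
  rk : G → ℕ
  rk_lt : ∀ g h, wires g h ≠ 0 → rk h < rk g
  out : G

attribute [instance] Circuit.fG Circuit.dG

variable {K : Type} [Field K] {σ : Type}

/-- the polynomial computed at a gate -/
noncomputable def Circuit.val (C : Circuit K σ) (g : C.G) : MvPolynomial σ K :=
  match C.kind g with
  | Kind.var x => MvPolynomial.X x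
  | Kind.const c => MvPolynomial.C c
  | Kind.sum => ∑ h : {h // C.wires g h ≠ 0}, C.wires g h.1 • C.val h.1
  | Kind.prod => ∏ h : {h // C.wires g h ≠ 0}, C.val h.1 ^ C.wires g h.1
termination_by C.rk g
decreasing_by
  all_goals exact C.rk_lt g h.1 h.2

/-- `C` is symmetric under the map `f` of the variables: `f` extends to an automorphism of the circuit, a
permutation of the gates which preserves the wires and the kinds of the gates, replaces each input variable
`x` by `f x` and fixes the output gate. -/
def Circuit.SymmUnder (C : Circuit K σ) (f : σ → σ) : Prop :=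
  ∃ π : Equiv.Perm C.G, π C.out = C.out ∧
    (∀ g h, C.wires (π g) (π h) = C.wires g h) ∧ ∀ g, C.kind (π g) = (C.kind g).map f

/-- the number of wires -/
def Circuit.edges (C : Circuit K σ) : ℕ := ∑ g, ∑ h, C.wires g h

/-- the permanent of the generic matrix with rows and columns indexed by `Ω` -/
noncomputable def perPoly (K : Type) [Field K] (Ω : Type) [Fintype Ω] [DecidableEq Ω] :
    MvPolynomial (Ω × Ω) K :=
  ∑ π : Equiv.Perm Ω, ∏ x, MvPolynomial.X (x, π x)

/-- a permutation of the indices acts simultaneously on the rows and the columns -/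
def diag {Ω : Type} (g : Equiv.Perm Ω) (v : Ω × Ω) : Ω × Ω := (g v.1, g v.2)

/-- the 3-cycle `x ↦ y, y ↦ z, z ↦ x` -/
def cyc {Ω : Type} [DecidableEq Ω] (x y z : Ω) : Equiv.Perm Ω := Equiv.swap x y * Equiv.swap y z

/-- `g` maps each of the blocks `{β (v, 0), …, β (v, 3)}` to itself and fixes all other points -/
def Preserves {Ω : Type} {r : ℕ} (β : Fin r × Fin 4 ↪ Ω) (g : Equiv.Perm Ω) : Prop :=
  (∀ v a, ∃ a', g (β (v, a)) = β (v, a')) ∧ ∀ x, (∀ v, β v ≠ x) → g x = x

end H522R2.LS
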