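import Pool.Agent.H522R2.LS.Final

/-!
The number of wires, and symmetrisation.
-/

namespace H522R2.LS

open Finset BigOperators

set_option linter.unusedSectionVars false

variable {K : Type} [Field K] {σ : Type}

/-- gates which are not isolated, and the output -/
def Live (C : Circuit K σ) (g : C.G) : Prop :=
  g = C.out ∨ ∃ h, C.wires g h ≠ 0 ∨ C.wires h g ≠ 0

open Classical in
/-- the subcircuit of the live gates -/
noncomputable def live (C : Circuit K σ) : Circuit K σ where
  G := {g : C.G // Live C g}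
  kind g := C.kind g.1
  wires g h := C.wires g.1 h.1
  rk g := C.rk g.1
  rk_lt g h hw := C.rk_lt g.1 h.1 hw
  out := ⟨C.out, Or.inl rfl⟩

lemma live_wires (C : Circuit K σ) (g h : (live C).G) : (live C).wires g h = C.wires g.1 h.1 := rfl

lemma live_val (C : Circuit K σ) : ∀ (n : ℕ) (g : (live C).G), C.rk g.1 = n →
    (live C).val g = C.val g.1 := by
  classical
  intro n
  induction n using Nat.strong_induction_on with
  | _ n ih =>
    intro g hg
    have hk : (live C).kind g = C.kind g.1 := rfl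
    rcases hkg : C.kind g.1 with x | c | _ | _
    · rw [hkg] at hk
      rw [Circuit.val_var _ g x hk, C.val_var g.1 x hkg]
    · rw [hkg] at hk
      rw [Circuit.val_const _ g c hk, C.val_const g.1 c hkg]
    · rw [hkg] at hk
      rw [Circuit.val_sum _ g hk, C.val_sum g.1 hkg]
      have h1 : ∀ h : (live C).G, (live C).wires g h • (live C).val h = C.wires g.1 h.1 • C.val h.1 := by
        intro h
        by_cases hx : C.wires g.1 h.1 = 0
        · rw [live_wires, hx, zero_smul, zero_smul]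
        · rw [live_wires, ih (C.rk h.1) (hg ▸ C.rk_lt g.1 h.1 hx) h rfl]
      rw [Finset.sum_congr rfl (fun h _ => h1 h)]
      have h3 := (Finset.sum_subtype (F := (live C).fG) (univ.filter (Live C)) (p := Live C) (by simp)
        (fun h => C.wires g.1 h • C.val h)).symm
      refine Eq.trans h3 ?_
      refine Finset.sum_subset (Finset.subset_univ _) (fun h _ hh => ?_)
      have h4 : C.wires g.1 h = 0 := by
        by_contra h5
        apply hh
        rw [Finset.mem_filter]
        exact ⟨Finset.mem_univ _, Or.inr ⟨g.1, Or.inr h5⟩⟩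
      rw [h4, zero_smul]
    · rw [hkg] at hk
      rw [Circuit.val_prod _ g hk, C.val_prod g.1 hkg]
      have h1 : ∀ h : (live C).G, (live C).val h ^ (live C).wires g h = C.val h.1 ^ C.wires g.1 h.1 := by
        intro h
        by_cases hx : C.wires g.1 h.1 = 0
        · rw [live_wires, hx, pow_zero, pow_zero]
        · rw [live_wires, ih (C.rk h.1) (hg ▸ C.rk_lt g.1 h.1 hx) h rfl]
      rw [Finset.prod_congr rfl (fun h _ => h1 h)]
      have h3 := (Finset.prod_subtype (F := (live C).fG) (univ.filter (Live C)) (p := Live C) (by simp)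
        (fun h => C.val h ^ C.wires g.1 h)).symm
      refine Eq.trans h3 ?_
      refine Finset.prod_subset (Finset.subset_univ _) (fun h _ hh => ?_)
      have h4 : C.wires g.1 h = 0 := by
        by_contra h5
        apply hh
        rw [Finset.mem_filter]
        exact ⟨Finset.mem_univ _, Or.inr ⟨g.1, Or.inr h5⟩⟩
      rw [h4, pow_zero]

lemma live_symm (C : Circuit K σ) (f : σ → σ) (h : C.SymmUnder f) : (live C).SymmUnder f := by
  classical
  obtain ⟨π, h1, h2, h3⟩ := h
  have hl : ∀ g, Live C (π g) ↔ Live C g := by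
    intro g
    unfold Live
    constructor
    · rintro (h | ⟨h, h4 | h4⟩)
      · left
        apply π.injective
        rw [h, h1]
      · right
        refine ⟨π.symm h, Or.inl ?_⟩
        rw [← h2, Equiv.apply_symm_apply]; exact h4
      · right
        refine ⟨π.symm h, Or.inr ?_⟩
        rw [← h2, Equiv.apply_symm_apply]; exact h4
    · rintro (h | ⟨h, h4 | h4⟩)
      · left
        rw [h, h1]
      · right
        refine ⟨π h, Or.inl ?_⟩
        rw [h2]; exact h4
      · right
        refine ⟨π h, Or.inr ?_⟩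
        rw [h2]; exact h4
  refine ⟨π.subtypePerm hl, ?_, ?_, ?_⟩
  · exact Subtype.ext h1
  · intro g g'
    exact h2 g.1 g'.1
  · intro g
    exact h3 g.1

lemma live_card (C : Circuit K σ) : Fintype.card (live C).G ≤ 2 * C.edges + 1 := by
  classical
  let S1 : Finset C.G := univ.filter (fun g => ∃ h, C.wires g h ≠ 0)
  let S2 : Finset C.G := univ.filter (fun g => ∃ h, C.wires h g ≠ 0)
  have hS1 : S1.card ≤ C.edges := by
    calc S1.card = ∑ g ∈ S1, 1 := by simp
      _ ≤ ∑ g ∈ S1, ∑ h, C.wires g h := by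
        refine Finset.sum_le_sum (fun g hg => ?_)
        obtain ⟨h, hh⟩ := (Finset.mem_filter.mp hg).2
        have := Finset.single_le_sum (f := fun h => C.wires g h) (fun _ _ => Nat.zero_le _)
          (Finset.mem_univ h)
        omega
      _ ≤ C.edges := Finset.sum_le_sum_of_subset (Finset.subset_univ _)
  have hS2 : S2.card ≤ C.edges := by
    unfold Circuit.edges
    rw [Finset.sum_comm]
    calc S2.card = ∑ g ∈ S2, 1 := by simp
      _ ≤ ∑ g ∈ S2, ∑ h, C.wires h g := by
        refine Finset.sum_le_sum (fun g hg => ?_)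
        obtain ⟨h, hh⟩ := (Finset.mem_filter.mp hg).2
        have := Finset.single_le_sum (f := fun h => C.wires h g) (fun _ _ => Nat.zero_le _)
          (Finset.mem_univ h)
        omega
      _ ≤ _ := Finset.sum_le_sum_of_subset (Finset.subset_univ _)
  have hsub : (univ.filter (Live C)) ⊆ insert C.out (S1 ∪ S2) := by
    intro g hg
    rw [Finset.mem_filter] at hg
    rw [Finset.mem_insert, Finset.mem_union]
    rcases hg.2 with h | ⟨h, h4 | h4⟩
    · exact Or.inl h
    · exact Or.inr (Or.inl (Finset.mem_filter.mpr ⟨Finset.mem_univ _, h, h4⟩))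
    · exact Or.inr (Or.inr (Finset.mem_filter.mpr ⟨Finset.mem_univ _, h, h4⟩))
  have h1 : Fintype.card (live C).G = (univ.filter (Live C)).card := by
    have := Fintype.card_subtype (Live C)
    rw [← this]
    exact Fintype.card_congr (Equiv.refl _)
  rw [h1]
  have h2 := Finset.card_le_card hsub
  have h3 := Finset.card_insert_le C.out (S1 ∪ S2)
  have h4 := Finset.card_union_le S1 S2
  omega

/-! ### symmetrisation -/

variable {Ω : Type} [Fintype Ω] [DecidableEq Ω] {r : ℕ}

/-- the permutation of `Ω` given by permutations of the blocks -/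
noncomputable def bp (β : Fin r × Fin 4 ↪ Ω) (g : Fin r → Equiv.Perm (Fin 4)) : Equiv.Perm Ω :=
  Equiv.Perm.viaEmbedding (Equiv.prodShear (Equiv.refl _) g) β

lemma bp_apply (β : Fin r × Fin 4 ↪ Ω) (g : Fin r → Equiv.Perm (Fin 4)) (v : Fin r) (a : Fin 4) :
    bp β g (β (v, a)) = β (v, g v a) := by
  unfold bp
  rw [Equiv.Perm.viaEmbedding_apply]
  rfl

lemma bp_out (β : Fin r × Fin 4 ↪ Ω) (g : Fin r → Equiv.Perm (Fin 4)) (x : Ω)
    (hx : ∀ v, β v ≠ x) : bp β g x = x := by
  unfold bp
  apply Equiv.Perm.viaEmbedding_apply_of_notMem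
  rintro ⟨v, hv⟩
  exact hx v hv

lemma bp_mul (β : Fin r × Fin 4 ↪ Ω) (g h : Fin r → Equiv.Perm (Fin 4)) :
    bp β (g * h) = bp β g * bp β h := by
  ext x
  rw [Equiv.Perm.mul_apply]
  by_cases hx : ∀ v, β v ≠ x
  · rw [bp_out β _ x hx, bp_out β h x hx, bp_out β g x hx]
  · push Not at hx
    obtain ⟨⟨v, a⟩, rfl⟩ := hx
    rw [bp_apply, bp_apply, bp_apply]
    rfl

lemma exists_bp (β : Fin r × Fin 4 ↪ Ω) (π : Equiv.Perm Ω) (h : Preserves β π) :
    ∃ g, π = bp β g := by
  obtain ⟨h1, h2⟩ := h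
  choose f hf using h1
  have hinj : ∀ v, Function.Injective (f v) := by
    intro v a a' e
    have h3 : π (β (v, a)) = π (β (v, a')) := by rw [hf, hf, e]
    have h4 := β.injective (π.injective h3)
    exact (Prod.mk.inj h4).2
  refine ⟨fun v => Equiv.ofBijective (f v) (Finite.injective_iff_bijective.mp (hinj v)), ?_⟩
  ext x
  by_cases hx : ∀ v, β v ≠ x
  · rw [bp_out β _ x hx, h2 x hx]
  · push Not at hx
    obtain ⟨⟨v, a⟩, rfl⟩ := hx
    rw [bp_apply, hf]
    rfl

lemma perPoly_inv (π : Equiv.Perm Ω) :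
    MvPolynomial.rename (diag π) (perPoly K Ω) = perPoly K Ω := by
  unfold perPoly
  rw [map_sum, ← Equiv.sum_comp (MulAut.conj π).toEquiv (fun τ => ∏ x, MvPolynomial.X (x, τ x))]
  refine Finset.sum_congr rfl (fun τ _ => ?_)
  rw [map_prod, ← Equiv.prod_comp π (fun x => MvPolynomial.X (x, (MulAut.conj π).toEquiv τ x))]
  refine Finset.prod_congr rfl (fun x _ => ?_)
  rw [MvPolynomial.rename_X]
  simp [diag, MulAut.conj_apply]

/-- the symmetrised circuit -/
noncomputable def symC (β : Fin r × Fin 4 ↪ Ω) (C : Circuit K (Ω × Ω)) : Circuit K (Ω × Ω) where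
  G := ((Fin r → Equiv.Perm (Fin 4)) × C.G) ⊕ Fin 3
  kind x := match x with
    | Sum.inl (g, h) => (C.kind h).map (diag (bp β g))
    | Sum.inr 0 => Kind.sum
    | Sum.inr 1 => Kind.const (((24 : K) ^ r)⁻¹)
    | Sum.inr 2 => Kind.prod
  wires x y := match x, y with
    | Sum.inl (g, h), Sum.inl (g', h') => if g = g' then C.wires h h' else 0
    | Sum.inr 0, Sum.inl (_, h) => if h = C.out then 1 else 0
    | Sum.inr 2, Sum.inr 0 => 1
    | Sum.inr 2, Sum.inr 1 => 1
    | _, _ => 0
  rk x := match x with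
    | Sum.inl (_, h) => C.rk h
    | Sum.inr 0 => C.rk C.out + 1
    | Sum.inr 1 => 0
    | Sum.inr 2 => C.rk C.out + 2
  rk_lt x y h := by
    rcases x with ⟨g, x⟩ | t <;> rcases y with ⟨g', y⟩ | t'
    · simp only at h ⊢
      by_cases hg : g = g'
      · rw [if_pos hg] at h
        exact C.rk_lt x y h
      · rw [if_neg hg] at h
        exact absurd rfl h
    · exact absurd rfl h
    · fin_cases t
      · simp only at h ⊢
        by_cases hy : y = C.out
        · subst hy
          exact Nat.lt_succ_self _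
        · exact absurd (if_neg hy) h
      · exact absurd rfl h
      · exact absurd rfl h
    · fin_cases t <;> fin_cases t'
      all_goals first | exact absurd rfl h | (simp)
  out := Sum.inr 2

lemma symC_val (β : Fin r × Fin 4 ↪ Ω) (C : Circuit K (Ω × Ω)) (g : Fin r → Equiv.Perm (Fin 4)) :
    ∀ (n : ℕ) (h : C.G), C.rk h = n →
      (symC β C).val (Sum.inl (g, h)) = MvPolynomial.rename (diag (bp β g)) (C.val h) := by
  classical
  intro n
  induction n using Nat.strong_induction_on with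
  | _ n ih =>
    intro h hn
    have hk : (symC β C).kind (Sum.inl (g, h)) = (C.kind h).map (diag (bp β g)) := rfl
    have hw : ∀ g' h', (symC β C).wires (Sum.inl (g, h)) (Sum.inl (g', h'))
        = if g = g' then C.wires h h' else 0 := fun _ _ => rfl
    have hw2 : ∀ t, (symC β C).wires (Sum.inl (g, h)) (Sum.inr t) = 0 := fun _ => rfl
    rcases hkg : C.kind h with x | c | _ | _
    · rw [hkg] at hk
      rw [Circuit.val_var _ _ _ hk, C.val_var h x hkg, MvPolynomial.rename_X]
    · rw [hkg] at hk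
      rw [Circuit.val_const _ _ _ hk, C.val_const h c hkg, MvPolynomial.rename_C]
    · rw [hkg] at hk
      rw [Circuit.val_sum _ _ hk, C.val_sum h hkg, map_sum]
      have h1 : ∑ y, (symC β C).wires (Sum.inl (g, h)) y • (symC β C).val y
          = ∑ y : ((Fin r → Equiv.Perm (Fin 4)) × C.G) ⊕ Fin 3,
            (symC β C).wires (Sum.inl (g, h)) y • (symC β C).val y := rfl
      rw [h1, Fintype.sum_sum_type]
      simp only [hw2, zero_smul, Finset.sum_const_zero, add_zero]
      rw [Fintype.sum_prod_type, Finset.sum_eq_single g]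
      · refine Finset.sum_congr rfl (fun x _ => ?_)
        rw [hw, if_pos rfl, map_nsmul]
        by_cases hx : C.wires h x = 0
        · rw [hx, zero_smul, zero_smul]
        · rw [ih (C.rk x) (hn ▸ C.rk_lt h x hx) x rfl]
      · intro g' _ hg'
        refine Finset.sum_eq_zero (fun x _ => ?_)
        rw [hw, if_neg (Ne.symm hg'), zero_smul]
      · intro h'; exact absurd (Finset.mem_univ _) h'
    · rw [hkg] at hk
      rw [Circuit.val_prod _ _ hk, C.val_prod h hkg, map_prod]
      have h1 : ∏ y, (symC β C).val y ^ (symC β C).wires (Sum.inl (g, h)) y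
          = ∏ y : ((Fin r → Equiv.Perm (Fin 4)) × C.G) ⊕ Fin 3,
            (symC β C).val y ^ (symC β C).wires (Sum.inl (g, h)) y := rfl
      rw [h1, Fintype.prod_sum_type]
      simp only [hw2, pow_zero, Finset.prod_const_one, mul_one]
      rw [Fintype.prod_prod_type, Finset.prod_eq_single g]
      · refine Finset.prod_congr rfl (fun x _ => ?_)
        rw [hw, if_pos rfl, map_pow]
        by_cases hx : C.wires h x = 0
        · rw [hx, pow_zero, pow_zero]
        · rw [ih (C.rk x) (hn ▸ C.rk_lt h x hx) x rfl]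
      · intro g' _ hg'
        refine Finset.prod_eq_one (fun x _ => ?_)
        rw [hw, if_neg (Ne.symm hg'), pow_zero]
      · intro h'; exact absurd (Finset.mem_univ _) h'

lemma card_blocks : Fintype.card (Fin r → Equiv.Perm (Fin 4)) = 24 ^ r := by
  rw [Fintype.card_fun, Fintype.card_perm, Fintype.card_fin, Fintype.card_fin]
  rfl

lemma symC_out [CharZero K] (β : Fin r × Fin 4 ↪ Ω) (C : Circuit K (Ω × Ω))
    (hval : C.val C.out = perPoly K Ω) : (symC β C).val (symC β C).out = perPoly K Ω := by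
  classical
  have h0 : (symC β C).val (Sum.inr 0 : ((Fin r → Equiv.Perm (Fin 4)) × C.G) ⊕ Fin 3)
      = (24 : MvPolynomial (Ω × Ω) K) ^ r * perPoly K Ω := by
    rw [Circuit.val_sum _ _ rfl]
    have h1 : ∑ y, (symC β C).wires (Sum.inr 0 : ((Fin r → Equiv.Perm (Fin 4)) × C.G) ⊕ Fin 3) y
          • (symC β C).val y
          = ∑ y : ((Fin r → Equiv.Perm (Fin 4)) × C.G) ⊕ Fin 3,
            (symC β C).wires (Sum.inr 0) y • (symC β C).val y := rfl
    rw [h1, Fintype.sum_sum_type]
    have hw2 : ∀ t : Fin 3, (symC β C).wires (Sum.inr 0 : ((Fin r → Equiv.Perm (Fin 4)) × C.G) ⊕ Fin 3)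
        (Sum.inr t) = 0 := fun _ => rfl
    have hw : ∀ g' h', (symC β C).wires (Sum.inr 0 : ((Fin r → Equiv.Perm (Fin 4)) × C.G) ⊕ Fin 3)
        (Sum.inl (g', h')) = if h' = C.out then 1 else 0 := fun _ _ => rfl
    simp only [hw2, zero_smul, Finset.sum_const_zero, add_zero]
    rw [Fintype.sum_prod_type]
    have h2 : ∀ g' : Fin r → Equiv.Perm (Fin 4), ∑ h' : C.G,
        (symC β C).wires (Sum.inr 0 : ((Fin r → Equiv.Perm (Fin 4)) × C.G) ⊕ Fin 3)
        (Sum.inl (g', h')) • (symC β C).val (Sum.inl (g', h')) = perPoly K Ω := by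
      intro g'
      rw [Finset.sum_eq_single C.out]
      · rw [hw, if_pos rfl, one_smul, symC_val β C g' _ C.out rfl, hval, perPoly_inv]
      · intro h' _ hh'
        rw [hw, if_neg hh', zero_smul]
      · intro h'; exact absurd (Finset.mem_univ _) h'
    rw [Finset.sum_congr rfl (fun g' _ => h2 g'), Finset.sum_const, Finset.card_univ, card_blocks,
      nsmul_eq_mul]
    push_cast
    rfl
  have h1 : (symC β C).val (Sum.inr 1 : ((Fin r → Equiv.Perm (Fin 4)) × C.G) ⊕ Fin 3)
      = MvPolynomial.C (((24 : K) ^ r)⁻¹) := Circuit.val_const _ _ _ rfl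
  show (symC β C).val (Sum.inr 2 : ((Fin r → Equiv.Perm (Fin 4)) × C.G) ⊕ Fin 3) = _
  rw [Circuit.val_prod _ _ rfl]
  have h2 : ∏ y, (symC β C).val y ^ (symC β C).wires
        (Sum.inr 2 : ((Fin r → Equiv.Perm (Fin 4)) × C.G) ⊕ Fin 3) y
      = ∏ y : ((Fin r → Equiv.Perm (Fin 4)) × C.G) ⊕ Fin 3,
        (symC β C).val y ^ (symC β C).wires (Sum.inr 2) y := rfl
  rw [h2, Fintype.prod_sum_type]
  have hw : ∀ w, (symC β C).wires (Sum.inr 2 : ((Fin r → Equiv.Perm (Fin 4)) × C.G) ⊕ Fin 3)
        (Sum.inl w) = 0 := fun _ => rfl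
  simp only [hw, pow_zero, Finset.prod_const_one, one_mul]
  rw [Fin.prod_univ_three]
  have w0 : (symC β C).wires (Sum.inr 2 : ((Fin r → Equiv.Perm (Fin 4)) × C.G) ⊕ Fin 3)
        (Sum.inr 0) = 1 := rfl
  have w1 : (symC β C).wires (Sum.inr 2 : ((Fin r → Equiv.Perm (Fin 4)) × C.G) ⊕ Fin 3)
        (Sum.inr 1) = 1 := rfl
  have w2 : (symC β C).wires (Sum.inr 2 : ((Fin r → Equiv.Perm (Fin 4)) × C.G) ⊕ Fin 3)
        (Sum.inr 2) = 0 := rfl
  rw [w0, w1, w2, pow_one, pow_one, pow_zero, mul_one, h0, h1]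
  have h3 : (24 : MvPolynomial (Ω × Ω) K) ^ r * MvPolynomial.C (((24 : K) ^ r)⁻¹) = 1 := by
    have h4 : (24 : MvPolynomial (Ω × Ω) K) = MvPolynomial.C (24 : K) := by
      rw [map_ofNat]
    rw [h4, ← MvPolynomial.C_pow, ← MvPolynomial.C_mul, mul_inv_cancel₀, MvPolynomial.C_1]
    exact pow_ne_zero _ (by norm_num)
  calc (24 : MvPolynomial (Ω × Ω) K) ^ r * perPoly K Ω * MvPolynomial.C (((24 : K) ^ r)⁻¹)
      = ((24 : MvPolynomial (Ω × Ω) K) ^ r * MvPolynomial.C (((24 : K) ^ r)⁻¹)) * perPoly K Ω := by ring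
    _ = perPoly K Ω := by rw [h3, one_mul]

lemma symC_symm (β : Fin r × Fin 4 ↪ Ω) (C : Circuit K (Ω × Ω)) (g0 : Fin r → Equiv.Perm (Fin 4)) :
    (symC β C).SymmUnder (diag (bp β g0)) := by
  classical
  refine ⟨Equiv.sumCongr (Equiv.prodCongr (Equiv.mulLeft g0) (Equiv.refl _)) (Equiv.refl _), rfl, ?_, ?_⟩
  · rintro (⟨g, h⟩ | t) (⟨g', h'⟩ | t')
    · show (if g0 * g = g0 * g' then C.wires h h' else 0) = if g = g' then C.wires h h' else 0
      simp only [mul_right_inj]
    · rfl
    · fin_cases t <;> rfl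
    · rfl
  · rintro (⟨g, h⟩ | t)
    · show (C.kind h).map (diag (bp β (g0 * g))) = ((C.kind h).map (diag (bp β g))).map (diag (bp β g0))
      rw [bp_mul, diag_mul]
      rcases C.kind h <;> rfl
    · fin_cases t <;> rfl

lemma symC_card (β : Fin r × Fin 4 ↪ Ω) (C : Circuit K (Ω × Ω)) :
    Fintype.card (symC β C).G = 24 ^ r * Fintype.card C.G + 3 := by
  show Fintype.card (((Fin r → Equiv.Perm (Fin 4)) × C.G) ⊕ Fin 3) = _
  rw [Fintype.card_sum, Fintype.card_prod, card_blocks, Fintype.card_fin]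

lemma symC_edges (β : Fin r × Fin 4 ↪ Ω) (C : Circuit K (Ω × Ω)) :
    (symC β C).edges = 24 ^ r * (C.edges + 1) + 2 := by
  classical
  show ∑ x : ((Fin r → Equiv.Perm (Fin 4)) × C.G) ⊕ Fin 3,
    ∑ y : ((Fin r → Equiv.Perm (Fin 4)) × C.G) ⊕ Fin 3, (symC β C).wires x y = _
  rw [Fintype.sum_sum_type]
  have hA : ∀ x : (Fin r → Equiv.Perm (Fin 4)) × C.G,
      ∑ y : ((Fin r → Equiv.Perm (Fin 4)) × C.G) ⊕ Fin 3, (symC β C).wires (Sum.inl x) y
      = ∑ h', C.wires x.2 h' := by
    rintro ⟨g, h⟩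
    rw [Fintype.sum_sum_type]
    have hw2 : ∀ t, (symC β C).wires (Sum.inl (g, h)) (Sum.inr t) = 0 := fun _ => rfl
    simp only [hw2, Finset.sum_const_zero, add_zero]
    rw [Fintype.sum_prod_type, Finset.sum_eq_single g]
    · refine Finset.sum_congr rfl (fun x _ => ?_)
      show (if g = g then C.wires h x else 0) = _
      rw [if_pos rfl]
    · intro g' _ hg'
      refine Finset.sum_eq_zero (fun x _ => ?_)
      show (if g = g' then C.wires h x else 0) = 0
      rw [if_neg (Ne.symm hg')]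
    · intro h'; exact absurd (Finset.mem_univ _) h'
  have hB : ∑ t : Fin 3, ∑ y : ((Fin r → Equiv.Perm (Fin 4)) × C.G) ⊕ Fin 3,
      (symC β C).wires (Sum.inr t) y = 24 ^ r + 2 := by
    rw [Fin.sum_univ_three]
    simp only [Fintype.sum_sum_type, Fin.sum_univ_three, Fintype.sum_prod_type]
    have e0 : ∀ g h, (symC β C).wires (Sum.inr 0 : ((Fin r → Equiv.Perm (Fin 4)) × C.G) ⊕ Fin 3)
      (Sum.inl (g, h)) = if h = C.out then 1 else 0 := fun _ _ => rfl
    have e1 : ∀ g h, (symC β C).wires (Sum.inr 1 : ((Fin r → Equiv.Perm (Fin 4)) × C.G) ⊕ Fin 3)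
      (Sum.inl (g, h)) = 0 := fun _ _ => rfl
    have e2 : ∀ g h, (symC β C).wires (Sum.inr 2 : ((Fin r → Equiv.Perm (Fin 4)) × C.G) ⊕ Fin 3)
      (Sum.inl (g, h)) = 0 := fun _ _ => rfl
    have f0 : ∀ t, (symC β C).wires (Sum.inr 0 : ((Fin r → Equiv.Perm (Fin 4)) × C.G) ⊕ Fin 3)
      (Sum.inr t) = 0 := fun _ => rfl
    have f1 : ∀ t, (symC β C).wires (Sum.inr 1 : ((Fin r → Equiv.Perm (Fin 4)) × C.G) ⊕ Fin 3)
      (Sum.inr t) = 0 := fun _ => rfl
    have f20 : (symC β C).wires (Sum.inr 2 : ((Fin r → Equiv.Perm (Fin 4)) × C.G) ⊕ Fin 3)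
      (Sum.inr 0) = 1 := rfl
    have f21 : (symC β C).wires (Sum.inr 2 : ((Fin r → Equiv.Perm (Fin 4)) × C.G) ⊕ Fin 3)
      (Sum.inr 1) = 1 := rfl
    have f22 : (symC β C).wires (Sum.inr 2 : ((Fin r → Equiv.Perm (Fin 4)) × C.G) ⊕ Fin 3)
      (Sum.inr 2) = 0 := rfl
    simp only [e0, e1, e2, f0, f1, f20, f21, f22, Finset.sum_const_zero, Finset.sum_ite_eq',
      Finset.mem_univ, if_true, Finset.sum_const, Finset.card_univ, card_blocks, smul_eq_mul, mul_one]
    ring
  rw [hB, Finset.sum_congr rfl (fun x _ => hA x), Fintype.sum_prod_type]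
  have : ∀ g : Fin r → Equiv.Perm (Fin 4), ∑ h : C.G, ∑ h', C.wires (g, h).2 h' = C.edges := fun _ => rfl
  rw [Finset.sum_congr rfl (fun g _ => this g), Finset.sum_const, Finset.card_univ, card_blocks,
    smul_eq_mul]
  ring

end H522R2.LS
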