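import Pool.Agent.H522R2.LS.Main

/-!
The lower bound for arbitrary disjoint blocks of four indices.
-/

namespace H522R2.LS

open Finset BigOperators

set_option linter.unusedSectionVars false

variable {K : Type} [Field K]
variable {Ω : Type} [Fintype Ω] [DecidableEq Ω]

lemma cyc_inj {α : Type} [DecidableEq α] (f : α → Ω) (hf : Function.Injective f) (x y z a : α) :
    cyc (f x) (f y) (f z) (f a) = f (cyc x y z a) := by
  unfold cyc
  rw [Equiv.Perm.mul_apply, Equiv.Perm.mul_apply, hf.swap_apply, hf.swap_apply]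

lemma cyc_ne (x y z w : Ω) (h1 : w ≠ x) (h2 : w ≠ y) (h3 : w ≠ z) : cyc x y z w = w := by
  unfold cyc
  rw [Equiv.Perm.mul_apply, Equiv.swap_apply_of_ne_of_ne h2 h3, Equiv.swap_apply_of_ne_of_ne h1 h2]

/-- the identification of the positions with the indices -/
lemma exists_equiv {r N : ℕ} (β : Fin r × Fin 4 ↪ Ω) (J : (Ix N ⊕ Fin N) ↪ Fin r) :
    ∃ e : Pos N {x : Ω // ∀ v a, β (J v, a) ≠ x} ≃ Ω,
      (∀ i s j a, e (.blk i s j a) = β (J (Sum.inl (i, s, j)), a)) ∧
      (∀ i l, e (.host i l) = β (J (Sum.inr i), l)) ∧ ∀ δ, e (.dum δ) = δ.1 := by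
  classical
  let f : Pos N {x : Ω // ∀ v a, β (J v, a) ≠ x} → Ω := fun x => match x with
    | .blk i s j a => β (J (Sum.inl (i, s, j)), a)
    | .host i l => β (J (Sum.inr i), l)
    | .dum δ => δ.1
  have hinj : Function.Injective f := by
    intro x y h
    rcases x with ⟨i, s, j, a⟩ | ⟨i, l⟩ | δ <;> rcases y with ⟨i', s', j', a'⟩ | ⟨i', l'⟩ | δ'
    · have h1 := β.injective h
      rw [Prod.mk.injEq] at h1
      have h2 := J.injective h1.1
      simp only [Sum.inl.injEq, Prod.mk.injEq] at h2
      obtain ⟨rfl, rfl, rfl⟩ := h2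
      rw [h1.2]
    · have h1 := β.injective h
      rw [Prod.mk.injEq] at h1
      have h2 := J.injective h1.1
      simp at h2
    · exact absurd h (δ'.2 _ _)
    · have h1 := β.injective h
      rw [Prod.mk.injEq] at h1
      have h2 := J.injective h1.1
      simp at h2
    · have h1 := β.injective h
      rw [Prod.mk.injEq] at h1
      have h2 := J.injective h1.1
      simp only [Sum.inr.injEq] at h2
      subst h2
      rw [h1.2]
    · exact absurd h (δ'.2 _ _)
    · exact absurd h.symm (δ.2 _ _)
    · exact absurd h.symm (δ.2 _ _)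
    · have : δ = δ' := Subtype.ext h
      rw [this]
  have hsurj : Function.Surjective f := by
    intro x
    by_cases h : ∀ v a, β (J v, a) ≠ x
    · exact ⟨.dum ⟨x, h⟩, rfl⟩
    · push Not at h
      obtain ⟨v, a, h⟩ := h
      rcases v with ⟨i, s, j⟩ | i
      · exact ⟨.blk i s j a, h⟩
      · exact ⟨.host i a, h⟩
  exact ⟨Equiv.ofBijective f ⟨hinj, hsurj⟩, fun _ _ _ _ => rfl, fun _ _ => rfl, fun _ => rfl⟩

/-- the group of the block permutations under which the circuit is symmetric -/
def symG {N : ℕ} {Δ : Type} [Fintype Δ] [DecidableEq Δ] (e : Pos N Δ ≃ Ω) (C : Circuit K (Ω × Ω)) :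
    Subgroup (Ix N → A4) where
  carrier := {g | C.SymmUnder (diag (FF e g))}
  one_mem' := by
    show C.SymmUnder _
    rw [symmUnder_iff]
    exact ⟨1, by rw [FF_one, diag_one]; exact IsAut.one C⟩
  mul_mem' := by
    intro g g' h h'
    have h1 : C.SymmUnder (diag (FF e g)) := h
    have h2 : C.SymmUnder (diag (FF e g')) := h'
    rw [symmUnder_iff] at h1 h2
    obtain ⟨p, hp⟩ := h1
    obtain ⟨q, hq⟩ := h2
    show C.SymmUnder _
    rw [symmUnder_iff]
    exact ⟨p * q, by rw [FF_mul, diag_mul]; exact hp.mul hq⟩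
  inv_mem' := by
    intro g h
    have h1 : C.SymmUnder (diag (FF e g)) := h
    rw [symmUnder_iff] at h1
    obtain ⟨p, hp⟩ := h1
    show C.SymmUnder _
    rw [symmUnder_iff]
    refine ⟨p⁻¹, hp.inv ?_⟩
    intro x
    have h1 : diag (FF e g⁻¹) (diag (FF e g) x) = diag (FF e g⁻¹ * FF e g) x := rfl
    rw [h1, ← FF_mul, inv_mul_cancel, FF_one]
    rfl

theorem lower_gates [CharZero K] {r : ℕ} (β : Fin r × Fin 4 ↪ Ω) (C : Circuit K (Ω × Ω))
    (hval : C.val C.out = perPoly K Ω)
    (hsym : ∀ (v : Fin r) (x y z : Fin 4), x ≠ y → y ≠ z → x ≠ z →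
      C.SymmUnder (diag (cyc (β (v, x)) (β (v, y)) (β (v, z))))) :
    2 ^ (r / 3360) ≤ Fintype.card C.G := by
  classical
  by_cases hN : r / 7 < 480
  · have : r / 3360 = 0 := by omega
    rw [this, pow_zero]
    exact Fintype.card_pos_iff.mpr ⟨C.out⟩
  · push Not at hN
    obtain ⟨N, hNdef⟩ : ∃ N, N = r / 7 := ⟨_, rfl⟩
    rw [← hNdef] at hN
    obtain ⟨π, hπ⟩ := Pool.Agent.Helper600R2.exists_expander (n := N) (by omega)
    have hcard : Fintype.card (Ix N ⊕ Fin N) ≤ Fintype.card (Fin r) := by
      simp only [Ix, Fintype.card_sum, Fintype.card_prod, Fintype.card_fin, Fintype.card_bool]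
      omega
    obtain ⟨J⟩ := Function.Embedding.nonempty_of_card_le hcard
    obtain ⟨e, he1, he2, he3⟩ := exists_equiv β J
    have hall : ∀ g : Ix N → A4, g ∈ symG e C := by
      intro g
      apply Subgroup.pi_mem_of_mulSingle_mem
      intro v
      obtain ⟨a, ha⟩ := g v
      induction ha using Subgroup.closure_induction with
      | mem a ha' =>
        obtain ⟨x, y, z, h1, h2, h3, rfl⟩ := ha'
        show C.SymmUnder (diag (FF e (Pi.mulSingle v ⟨cyc x y z, _⟩)))
        have key : FF e (Pi.mulSingle v ⟨cyc x y z, Subgroup.subset_closure ⟨x, y, z, h1, h2, h3, rfl⟩⟩)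
            = cyc (β (J (Sum.inl v), x)) (β (J (Sum.inl v), y)) (β (J (Sum.inl v), z)) := by
          ext w
          obtain ⟨p, rfl⟩ := e.surjective w
          unfold FF
          rw [Equiv.permCongr_apply, Equiv.symm_apply_apply]
          rcases p with ⟨i, s, j, b⟩ | ⟨i, l⟩ | δ
          · by_cases hv : (i, s, j) = v
            · subst hv
              have hf : Function.Injective (fun a : Fin 4 => β (J (Sum.inl (i, s, j)), a)) := by
                intro a a' haa
                have := β.injective haa
                exact (Prod.mk.inj this).2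
              have h4 := cyc_inj (fun a : Fin 4 => β (J (Sum.inl (i, s, j)), a)) hf x y z b
              show e (.blk i s j (((Pi.mulSingle (i, s, j) ⟨cyc x y z, _⟩ : Ix N → A4) (i, s, j) :
                Equiv.Perm (Fin 4)) b)) = _
              rw [Pi.mulSingle_eq_same, he1, he1]
              exact h4.symm
            · have hne : ∀ a : Fin 4, e (.blk i s j b) ≠ β (J (Sum.inl v), a) := by
                intro a haa
                rw [he1] at haa
                have h5 := (Prod.mk.inj (β.injective haa)).1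
                exact hv (Sum.inl.inj (J.injective h5))
              show e (.blk i s j (((Pi.mulSingle v ⟨cyc x y z, _⟩ : Ix N → A4) (i, s, j) :
                Equiv.Perm (Fin 4)) b)) = _
              rw [Pi.mulSingle_eq_of_ne hv, cyc_ne _ _ _ _ (hne x) (hne y) (hne z)]
              rfl
          · have hne : ∀ a : Fin 4, e (.host i l) ≠ β (J (Sum.inl v), a) := by
              intro a haa
              rw [he2] at haa
              have h5 := J.injective (Prod.mk.inj (β.injective haa)).1
              simp at h5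
            rw [cyc_ne _ _ _ _ (hne x) (hne y) (hne z)]
            rfl
          · have hne : ∀ a : Fin 4, e (.dum δ) ≠ β (J (Sum.inl v), a) := by
              intro a haa
              rw [he3] at haa
              exact δ.2 _ _ haa.symm
            rw [cyc_ne _ _ _ _ (hne x) (hne y) (hne z)]
            rfl
        have h6 := hsym (J (Sum.inl v)) x y z h1 h2 h3
        rw [← key] at h6
        exact h6
      | one =>
        have : (Pi.mulSingle v (⟨1, Subgroup.one_mem _⟩ : A4) : Ix N → A4) = 1 := Pi.mulSingle_one v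
        rw [this]
        exact Subgroup.one_mem _
      | mul a b ha hb iha ihb =>
        have e0 : (⟨a * b, Subgroup.mul_mem _ ha hb⟩ : A4) = (⟨a, ha⟩ : A4) * (⟨b, hb⟩ : A4) := rfl
        rw [e0, Pi.mulSingle_mul]
        exact Subgroup.mul_mem _ iha ihb
      | inv a ha iha =>
        have e0 : (⟨a⁻¹, Subgroup.inv_mem _ ha⟩ : A4) = (⟨a, ha⟩ : A4)⁻¹ := rfl
        rw [e0, Pi.mulSingle_inv]
        exact Subgroup.inv_mem _ iha
    have hmain := core_bound π hπ (r / 3360) (by omega) (by omega) e C hval (fun g => hall g)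
    exact hmain

end H522R2.LS
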