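import Pool.Agent.H522R2.LS.Core

/-!
The matrices `wt ω ρ b`, and the evaluation of their permanents.
-/

namespace H522R2.LS

open Finset BigOperators

set_option linter.unusedSectionVars false

/-- Positions (rows and columns).  `blk i s j a` are the gadget positions: `s = false` for the `U`-vertex `i`,
`s = true` for the `V`-vertex `i`, `a` is a codeword, `j` one of three copies; `host i l` are auxiliary
positions, `dum` dummies. -/
inductive Pos (N : ℕ) (Δ : Type)
  | blk (i : Fin N) (s : Bool) (j : Fin 3) (a : Fin 4)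
  | host (i : Fin N) (l : Fin 4)
  | dum (δ : Δ)
  deriving DecidableEq, Fintype

/-- `flp t` flips the coordinates `0` and `t` of the codewords -/
def flp : Fin 3 → Equiv.Perm (Fin 4) :=
  ![1, Equiv.swap 0 3 * Equiv.swap 1 2, Equiv.swap 0 2 * Equiv.swap 1 3]

/-- the codewords of even weight -/
def lab : Fin 4 → Fin 3 → ZMod 2 := ![![0, 0, 0], ![0, 1, 1], ![1, 0, 1], ![1, 1, 0]]

/-- the flips -/
def fl (t t' : Fin 3) : ZMod 2 := (if t' = 0 then 1 else 0) + (if t' = t then 1 else 0)

lemma lab_flp : ∀ (t : Fin 3) (a : Fin 4) (t' : Fin 3), lab (flp t a) t' = lab a t' + fl t t' := by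
  decide

lemma lab_sum : ∀ a : Fin 4, ∑ t, lab a t = 0 := by decide

variable {N : ℕ} {Δ : Type}

/-- the nonzero entries -/
def Adj (ρ : Fin 3 → Equiv.Perm (Fin N)) (b : Fin N → Fin 3 → ZMod 2) : Pos N Δ → Pos N Δ → Prop
  | .blk i false _ a, .blk i' false _ a' => i = i' ∧ a = a'
  | .blk i true _ a, .blk i' true _ a' => i = i' ∧ a = a'
  | .blk i true t a, .blk i' false t' a' => t = t' ∧ ρ t i' = i ∧ lab a' t + b i' t = lab a t
  | .blk i false _ _, .host i' l => i = i' ∧ l ≠ 3
  | .host i l, .blk i' true _ _ => i = i' ∧ l ≠ 3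
  | .host i l, .host i' l' => i = i' ∧ l = 3 ∧ l' = 3
  | .dum δ, .dum δ' => δ = δ'
  | _, _ => False

/-- the exponents of the entries -/
def ex : Pos N Δ → Pos N Δ → ℕ
  | .blk _ false j _, .blk _ false _ _ => j
  | .blk _ true _ _, .blk _ true j _ => j
  | _, _ => 0

variable {L : Type} [Field L]

open Classical in
/-- the matrix -/
noncomputable def wt (ω : L) (ρ : Fin 3 → Equiv.Perm (Fin N)) (b : Fin N → Fin 3 → ZMod 2)
    (x y : Pos N Δ) : L := if Adj ρ b x y then ω ^ ex x y else 0

/-! ### the gauge transformations -/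

/-- blockwise action -/
def act (g : Fin N × Bool × Fin 3 → Equiv.Perm (Fin 4)) : Equiv.Perm (Pos N Δ) where
  toFun x := match x with
    | .blk i s j a => .blk i s j (g (i, s, j) a)
    | .host i l => .host i l
    | .dum δ => .dum δ
  invFun x := match x with
    | .blk i s j a => .blk i s j ((g (i, s, j)).symm a)
    | .host i l => .host i l
    | .dum δ => .dum δ
  left_inv x := by cases x <;> simp
  right_inv x := by cases x <;> simp

lemma act_one : act (Δ := Δ) (1 : Fin N × Bool × Fin 3 → Equiv.Perm (Fin 4)) = 1 := by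
  ext x; cases x <;> rfl

lemma act_mul (g h : Fin N × Bool × Fin 3 → Equiv.Perm (Fin 4)) :
    act (Δ := Δ) (g * h) = act g * act h := by
  ext x; cases x <;> rfl

/-- **Gauge lemma.** -/
lemma wt_gauge (ω : L) (ρ : Fin 3 → Equiv.Perm (Fin N)) (b b' : Fin N → Fin 3 → ZMod 2)
    (τ : Fin N → Bool → Fin 3)
    (hb : ∀ i t, b i t = b' i t + fl (τ i false) t + fl (τ (ρ t i) true) t)
    (x y : Pos N Δ) :
    wt ω ρ b' (act (fun v => flp (τ v.1 v.2.1)) x) (act (fun v => flp (τ v.1 v.2.1)) y)
      = wt ω ρ b x y := by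
  have hex : ex (act (fun v => flp (τ v.1 v.2.1)) x) (act (fun v => flp (τ v.1 v.2.1)) y) = ex x y := by
    rcases x with ⟨i, s, j, a⟩ | ⟨i, l⟩ | δ <;> rcases y with ⟨i', s', j', a'⟩ | ⟨i', l'⟩ | δ' <;>
      try (cases s) <;> try (cases s') <;> rfl
    all_goals rfl
  have hadj : Adj ρ b' (act (fun v => flp (τ v.1 v.2.1)) x) (act (fun v => flp (τ v.1 v.2.1)) y)
      ↔ Adj ρ b x y := by
    rcases x with ⟨i, s, j, a⟩ | ⟨i, l⟩ | δ <;> rcases y with ⟨i', s', j', a'⟩ | ⟨i', l'⟩ | δ'
    · rcases s with _ | _ <;> rcases s' with _ | _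
      · show (i = i' ∧ flp (τ i false) a = flp (τ i' false) a') ↔ (i = i' ∧ a = a')
        constructor
        · rintro ⟨rfl, h⟩; exact ⟨rfl, (flp _).injective h⟩
        · rintro ⟨rfl, rfl⟩; exact ⟨rfl, rfl⟩
      · exact Iff.rfl
      · show (j = j' ∧ ρ j i' = i ∧ lab (flp (τ i' false) a') j + b' i' j
            = lab (flp (τ i true) a) j) ↔ (j = j' ∧ ρ j i' = i ∧ lab a' j + b i' j = lab a j)
        have h2 : ∀ u v w x y : ZMod 2, (u + x + v = w + y) ↔ (u + (v + x + y) = w) := by decide
        constructor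
        · rintro ⟨rfl, rfl, h⟩
          refine ⟨rfl, rfl, ?_⟩
          rw [lab_flp, lab_flp] at h
          rw [hb i' j]
          exact (h2 _ _ _ _ _).mp h
        · rintro ⟨rfl, rfl, h⟩
          refine ⟨rfl, rfl, ?_⟩
          rw [lab_flp, lab_flp]
          rw [hb i' j] at h
          exact (h2 _ _ _ _ _).mpr h
      · show (i = i' ∧ flp (τ i true) a = flp (τ i' true) a') ↔ (i = i' ∧ a = a')
        constructor
        · rintro ⟨rfl, h⟩; exact ⟨rfl, (flp _).injective h⟩
        · rintro ⟨rfl, rfl⟩; exact ⟨rfl, rfl⟩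
    · cases s <;> exact Iff.rfl
    · cases s <;> exact Iff.rfl
    · cases s' <;> exact Iff.rfl
    · exact Iff.rfl
    · exact Iff.rfl
    · cases s' <;> exact Iff.rfl
    · exact Iff.rfl
    · exact Iff.rfl
  unfold wt
  rw [hex]
  by_cases h : Adj ρ b x y
  · rw [if_pos h, if_pos (hadj.mpr h)]
  · rw [if_neg h, if_neg (fun h' => h (hadj.mp h'))]

/-- moving the twist along an edge -/
def tw (i : Fin N) : Fin N → Fin 3 → ZMod 2 := fun k t => if k = i ∧ t = 0 then 1 else 0

lemma tw_move (ρ : Fin 3 → Equiv.Perm (Fin N)) (h0 : ρ 0 = 1) (i j : Fin N) (t : Fin 3)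
    (hij : ρ t i = j) (k : Fin N) (t' : Fin 3) :
    tw j k t' = tw i k t' + fl (if k = i then t else 0) t' + fl (if ρ t' k = j then t else 0) t' := by
  have hz : ∀ t', fl 0 t' = 0 := by decide
  have h1 : fl (if k = i then t else 0) t' = if k = i then fl t t' else 0 := by
    split_ifs
    · rfl
    · exact hz t'
  have h2 : fl (if ρ t' k = j then t else 0) t' = if ρ t' k = j then fl t t' else 0 := by
    split_ifs
    · rfl
    · exact hz t'
  rw [h1, h2]
  by_cases ht : t = 0
  · subst ht
    have hj : j = i := by rw [← hij, h0]; rfl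
    subst hj
    simp [hz]
  · by_cases ht' : t' = 0
    · subst ht'
      have hf : fl t 0 = 1 := by
        unfold fl
        rw [if_pos rfl, if_neg (fun h => ht h.symm), add_zero]
      rw [hf, h0]
      simp only [tw, Equiv.Perm.coe_one, id, and_true]
      have h3 : ∀ x : ZMod 2, x + x = 0 := by decide
      by_cases hki : k = i
      · simp only [hki, if_true]
        rw [h3, zero_add]
      · by_cases hkj : k = j
        · simp only [if_neg hki, if_pos hkj, zero_add]
        · simp only [if_neg hki, if_neg hkj, zero_add]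
    · by_cases htt : t' = t
      · subst htt
        simp only [tw, ht', and_false, if_false, zero_add]
        have h4 : (ρ t' k = j) ↔ (k = i) := by
          rw [← hij]
          exact (ρ t').injective.eq_iff
        have h3 : ∀ x : ZMod 2, x + x = 0 := by decide
        simp only [h4]
        rw [h3]
      · have hf : fl t t' = 0 := by
          unfold fl
          rw [if_neg ht', if_neg htt, add_zero]
        simp [tw, ht', hf]

end H522R2.LS
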