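import Pool.Agent.H522R2.LS.Defs

/-!
Evaluation of symmetric circuits at twisted points: the abstract induction over the gates.
-/

namespace H522R2.LS

open Finset BigOperators

set_option linter.unusedSectionVars false

variable {K : Type} [Field K] {σ : Type}

lemma Circuit.val_var (C : Circuit K σ) (g : C.G) (x : σ) (h : C.kind g = Kind.var x) :
    C.val g = MvPolynomial.X x := by
  rw [Circuit.val, h]

lemma Circuit.val_const (C : Circuit K σ) (g : C.G) (c : K) (h : C.kind g = Kind.const c) :
    C.val g = MvPolynomial.C c := by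
  rw [Circuit.val, h]

lemma Circuit.val_sum (C : Circuit K σ) (g : C.G) (h : C.kind g = Kind.sum) :
    C.val g = ∑ h, C.wires g h • C.val h := by
  rw [Circuit.val, h]
  simp only
  rw [← Finset.sum_subtype (univ.filter (fun h => C.wires g h ≠ 0)) (by simp)
    (fun h => C.wires g h • C.val h)]
  · rw [Finset.sum_filter]
    refine Finset.sum_congr rfl (fun x _ => ?_)
    by_cases hx : C.wires g x = 0
    · simp [hx]
    · simp [hx]

lemma Circuit.val_prod (C : Circuit K σ) (g : C.G) (h : C.kind g = Kind.prod) :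
    C.val g = ∏ h, C.val h ^ C.wires g h := by
  rw [Circuit.val, h]
  simp only
  rw [← Finset.prod_subtype (univ.filter (fun h => C.wires g h ≠ 0)) (by simp)
    (fun h => C.val h ^ C.wires g h)]
  · rw [Finset.prod_filter]
    refine Finset.prod_congr rfl (fun x _ => ?_)
    by_cases hx : C.wires g x = 0
    · simp [hx]
    · simp [hx]

/-- automorphisms inducing a given map of the variables -/
structure IsAut (C : Circuit K σ) (π : Equiv.Perm C.G) (f : σ → σ) : Prop where
  out : π C.out = C.out
  wires : ∀ g h, C.wires (π g) (π h) = C.wires g h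
  kind : ∀ g, C.kind (π g) = (C.kind g).map f

lemma symmUnder_iff (C : Circuit K σ) (f : σ → σ) : C.SymmUnder f ↔ ∃ π, IsAut C π f :=
  ⟨fun ⟨π, h1, h2, h3⟩ => ⟨π, h1, h2, h3⟩, fun ⟨π, h⟩ => ⟨π, h.out, h.wires, h.kind⟩⟩

lemma IsAut.one (C : Circuit K σ) : IsAut C 1 id := by
  refine ⟨rfl, fun _ _ => rfl, fun g => ?_⟩
  simp only [Equiv.Perm.coe_one, id]
  rcases C.kind g <;> rfl

lemma IsAut.mul {C : Circuit K σ} {π π' : Equiv.Perm C.G} {f f' : σ → σ} (h : IsAut C π f)
    (h' : IsAut C π' f') : IsAut C (π * π') (f ∘ f') := by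
  refine ⟨?_, ?_, ?_⟩
  · rw [Equiv.Perm.mul_apply, h'.out, h.out]
  · intro g g'
    rw [Equiv.Perm.mul_apply, Equiv.Perm.mul_apply, h.wires, h'.wires]
  · intro g
    rw [Equiv.Perm.mul_apply, h.kind, h'.kind]
    rcases C.kind g <;> rfl

lemma IsAut.inv {C : Circuit K σ} {π : Equiv.Perm C.G} {f f' : σ → σ} (h : IsAut C π f)
    (hf : ∀ x, f' (f x) = x) : IsAut C π⁻¹ f' := by
  refine ⟨?_, ?_, ?_⟩
  · rw [Equiv.Perm.inv_eq_iff_eq, h.out]
  · intro g g'
    rw [← h.wires]
    simp
  · intro g
    have h1 := h.kind (π⁻¹ g)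
    have h2 : π (π⁻¹ g) = g := by simp
    rw [h2] at h1
    rw [h1]
    rcases C.kind (π⁻¹ g) with x | c | _ | _
    · simp only [Kind.map, hf]
    · rfl
    · rfl
    · rfl

variable {L : Type} [Field L] [Algebra K L]

/-- value of a gate at a point -/
noncomputable def ev (C : Circuit K σ) (M : σ → L) (g : C.G) : L := MvPolynomial.aeval M (C.val g)

lemma ev_var (C : Circuit K σ) (M : σ → L) (g : C.G) (x : σ) (h : C.kind g = Kind.var x) :
    ev C M g = M x := by
  rw [ev, C.val_var g x h, MvPolynomial.aeval_X]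

lemma ev_const (C : Circuit K σ) (M : σ → L) (g : C.G) (c : K) (h : C.kind g = Kind.const c) :
    ev C M g = algebraMap K L c := by
  rw [ev, C.val_const g c h, MvPolynomial.aeval_C]

lemma ev_sum (C : Circuit K σ) (M : σ → L) (g : C.G) (h : C.kind g = Kind.sum) :
    ev C M g = ∑ h, C.wires g h • ev C M h := by
  rw [ev, C.val_sum g h, map_sum]
  exact Finset.sum_congr rfl (fun x _ => by rw [map_nsmul]; rfl)

lemma ev_prod (C : Circuit K σ) (M : σ → L) (g : C.G) (h : C.kind g = Kind.prod) :
    ev C M g = ∏ h, ev C M h ^ C.wires g h := by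
  rw [ev, C.val_prod g h, map_prod]
  exact Finset.prod_congr rfl (fun x _ => by rw [map_pow]; rfl)

lemma ev_aut {C : Circuit K σ} {π : Equiv.Perm C.G} {f : σ → σ} (h : IsAut C π f) (M : σ → L) :
    ∀ (n : ℕ) (g : C.G), C.rk g = n → ev C M (π g) = ev C (M ∘ f) g := by
  intro n
  induction n using Nat.strong_induction_on with
  | _ n ih =>
    intro g hg
    have hk := h.kind g
    rcases hkg : C.kind g with x | c | _ | _
    · rw [hkg] at hk
      rw [ev_var C M _ _ hk, ev_var C (M ∘ f) g x hkg]
      rfl
    · rw [hkg] at hk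
      rw [ev_const C M _ _ hk, ev_const C (M ∘ f) g c hkg]
    · rw [hkg] at hk
      rw [ev_sum C M _ hk, ev_sum C (M ∘ f) g hkg, ← Equiv.sum_comp π]
      refine Finset.sum_congr rfl (fun x _ => ?_)
      rw [h.wires]
      by_cases hx : C.wires g x = 0
      · rw [hx, zero_smul, zero_smul]
      · rw [ih (C.rk x) (hg ▸ C.rk_lt g x hx) x rfl]
    · rw [hkg] at hk
      rw [ev_prod C M _ hk, ev_prod C (M ∘ f) g hkg, ← Equiv.prod_comp π]
      refine Finset.prod_congr rfl (fun x _ => ?_)
      rw [h.wires]
      by_cases hx : C.wires g x = 0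
      · rw [hx, pow_zero, pow_zero]
      · rw [ih (C.rk x) (hg ▸ C.rk_lt g x hx) x rfl]

/-- The game: `M i` are points which are all locally equal to `M0`.  If every gate `g` has a small set `D g` of
forbidden positions, and the twist can be moved within the core of the complement of `D g` by automorphisms
fixing `g`, then the gates cannot distinguish `M i` from `M0`. -/
theorem game {H : Type} [DecidableEq H] (C : Circuit K σ) (M : H → σ → L) (M0 : σ → L)
    (D : C.G → Finset H) (core : Finset H → Finset H)
    (hne : ∀ g h, (core (D g ∪ D h)).Nonempty)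
    (hmono : ∀ g h, core (D g ∪ D h) ⊆ core (D g))
    (hmove : ∀ g, ∀ i ∈ core (D g), ∀ i' ∈ core (D g), ∃ (π : Equiv.Perm C.G) (f : σ → σ),
      IsAut C π f ∧ π g = g ∧ (∀ h, D (π h) = D h) ∧ M i ∘ f = M i')
    (hin : ∀ g x, C.kind g = Kind.var x → ∀ i ∈ core (D g), M i x = M0 x) :
    ∀ (n : ℕ) (g : C.G), C.rk g = n → ∀ i ∈ core (D g), ev C (M i) g = ev C M0 g := by
  classical
  intro n
  induction n using Nat.strong_induction_on with
  | _ n ih =>
    intro g hg i hi
    -- the common part of the sum and the product case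
    have hfib : ∀ J ∈ univ.image D, ∃ (π : Equiv.Perm C.G), π g = g ∧
        (∀ g h, C.wires (π g) (π h) = C.wires g h) ∧ (∀ h, D (π h) = D h) ∧
        ∀ h, D h = J → C.wires g h ≠ 0 → ev C (M i) (π h) = ev C M0 h := by
      intro J hJ
      obtain ⟨h0, _, rfl⟩ := Finset.mem_image.mp hJ
      obtain ⟨i', hi'⟩ := hne g h0
      obtain ⟨π, f, hπ, hg1, hD, hM⟩ := hmove g i hi i' (hmono g h0 hi')
      refine ⟨π, hg1, hπ.wires, hD, ?_⟩
      intro h hh hw
      rw [ev_aut hπ (M i) _ h rfl, hM]
      refine ih (C.rk h) (hg ▸ C.rk_lt g h hw) h rfl i' ?_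
      rw [hh]
      have := hmono h0 g
      rw [Finset.union_comm] at this
      exact this hi'
    rcases hkg : C.kind g with x | c | _ | _
    · rw [ev_var C _ g x hkg, ev_var C _ g x hkg]
      exact hin g x hkg i hi
    · rw [ev_const C _ g c hkg, ev_const C _ g c hkg]
    · rw [ev_sum C _ g hkg, ev_sum C _ g hkg,
        ← Finset.sum_fiberwise_of_maps_to (s := univ) (t := univ.image D) (g := D)
          (fun x hx => Finset.mem_image_of_mem D hx),
        ← Finset.sum_fiberwise_of_maps_to (s := univ) (t := univ.image D) (g := D)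
          (fun x hx => Finset.mem_image_of_mem D hx)]
      refine Finset.sum_congr rfl (fun J hJ => ?_)
      obtain ⟨π, hπg, hπw, hπD, hπ⟩ := hfib J hJ
      symm
      refine Finset.sum_bij (fun h _ => π h) ?_ ?_ ?_ ?_
      · intro h hh
        rw [Finset.mem_filter] at hh ⊢
        exact ⟨Finset.mem_univ _, by rw [hπD]; exact hh.2⟩
      · intro h _ h' _ e
        exact π.injective e
      · intro h hh
        rw [Finset.mem_filter] at hh
        refine ⟨π.symm h, ?_, by simp⟩
        rw [Finset.mem_filter]
        refine ⟨Finset.mem_univ _, ?_⟩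
        rw [← hπD]
        simpa using hh.2
      · intro h hh
        rw [Finset.mem_filter] at hh
        have hw : C.wires g (π h) = C.wires g h := by
          conv_lhs => rw [← hπg]
          exact hπw g h
        rw [hw]
        by_cases hx : C.wires g h = 0
        · rw [hx, zero_smul, zero_smul]
        · rw [hπ h hh.2 hx]
    · rw [ev_prod C _ g hkg, ev_prod C _ g hkg,
        ← Finset.prod_fiberwise_of_maps_to (s := univ) (t := univ.image D) (g := D)
          (fun x hx => Finset.mem_image_of_mem D hx),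
        ← Finset.prod_fiberwise_of_maps_to (s := univ) (t := univ.image D) (g := D)
          (fun x hx => Finset.mem_image_of_mem D hx)]
      refine Finset.prod_congr rfl (fun J hJ => ?_)
      obtain ⟨π, hπg, hπw, hπD, hπ⟩ := hfib J hJ
      symm
      refine Finset.prod_bij (fun h _ => π h) ?_ ?_ ?_ ?_
      · intro h hh
        rw [Finset.mem_filter] at hh ⊢
        exact ⟨Finset.mem_univ _, by rw [hπD]; exact hh.2⟩
      · intro h _ h' _ e
        exact π.injective e
      · intro h hh
        rw [Finset.mem_filter] at hh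
        refine ⟨π.symm h, ?_, by simp⟩
        rw [Finset.mem_filter]
        refine ⟨Finset.mem_univ _, ?_⟩
        rw [← hπD]
        simpa using hh.2
      · intro h hh
        rw [Finset.mem_filter] at hh
        have hw : C.wires g (π h) = C.wires g h := by
          conv_lhs => rw [← hπg]
          exact hπw g h
        rw [hw]
        by_cases hx : C.wires g h = 0
        · rw [hx, pow_zero, pow_zero]
        · rw [hπ h hh.2 hx]

end H522R2.LS
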