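import Mathlib

/-!
The support lemma: a subgroup of small index of a product of groups contains the commutator subgroups of most
of the factors.
-/

namespace H522R2.LS

open Finset

/-- the indices at which the initial sections of `S` are proper -/
lemma card_bad1 {ι A X : Type} [Fintype ι] [LinearOrder ι] [Group A] [Fintype X]
    (S : Subgroup (ι → A)) (c : (ι → A) → X) (hc : ∀ g g', c g = c g' → g⁻¹ * g' ∈ S)
    (J : Finset ι) (hJ : ∀ i ∈ J, ∃ a : A, ∀ s ∈ S, (∀ j < i, s j = 1) → s i ≠ a) :
    2 ^ J.card ≤ Fintype.card X := by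
  classical
  choose! a ha using hJ
  let g : Finset ι → (ι → A) := fun E i => if i ∈ E then a i else 1
  have hinj : Set.InjOn (fun E => c (g E)) (J.powerset : Finset (Finset ι)) := by
    intro E hE F hF hEF
    by_contra hne
    have hE' : E ⊆ J := Finset.mem_powerset.mp (Finset.mem_coe.mp hE)
    have hF' : F ⊆ J := Finset.mem_powerset.mp (Finset.mem_coe.mp hF)
    have h1 : (g E)⁻¹ * g F ∈ S := hc _ _ hEF
    have h2 : (g F)⁻¹ * g E ∈ S := hc _ _ hEF.symm
    have hD : (symmDiff E F).Nonempty := by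
      rw [Finset.nonempty_iff_ne_empty]
      intro h
      exact hne (symmDiff_eq_bot.mp h)
    let i := (symmDiff E F).min' hD
    have hi : i ∈ symmDiff E F := Finset.min'_mem _ _
    have hlt : ∀ j < i, j ∈ E ↔ j ∈ F := by
      intro j hj
      by_contra h
      have : j ∈ symmDiff E F := by
        rw [Finset.mem_symmDiff]
        tauto
      exact absurd (Finset.min'_le _ _ this) (not_le.mpr hj)
    have hg : ∀ j < i, g E j = g F j := by
      intro j hj
      simp only [g]
      have := hlt j hj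
      by_cases h : j ∈ E
      · rw [if_pos h, if_pos (this.mp h)]
      · rw [if_neg h, if_neg (fun h' => h (this.mpr h'))]
    rcases Finset.mem_symmDiff.mp hi with ⟨h3, h4⟩ | ⟨h3, h4⟩
    · refine ha i (hE' h3) _ h2 ?_ ?_
      · intro j hj
        rw [Pi.mul_apply, Pi.inv_apply, hg j hj, inv_mul_cancel]
      · rw [Pi.mul_apply, Pi.inv_apply]
        simp only [g, if_pos h3, if_neg h4, inv_one, one_mul]
    · refine ha i (hF' h3) _ h1 ?_ ?_
      · intro j hj
        rw [Pi.mul_apply, Pi.inv_apply, hg j hj, inv_mul_cancel]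
      · rw [Pi.mul_apply, Pi.inv_apply]
        simp only [g, if_pos h3, if_neg h4, inv_one, one_mul]
  calc 2 ^ J.card = J.powerset.card := (Finset.card_powerset J).symm
    _ = (J.powerset.image (fun E => c (g E))).card := (Finset.card_image_of_injOn hinj).symm
    _ ≤ Fintype.card X := Finset.card_le_univ _

/-- **Support lemma.** -/
theorem support {ι A X : Type} [Fintype ι] [DecidableEq ι] [Group A] [Fintype X]
    (S : Subgroup (ι → A)) (c : (ι → A) → X) (hc : ∀ g g', c g = c g' → g⁻¹ * g' ∈ S)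
    (k : ℕ) (hX : Fintype.card X < 2 ^ k) :
    ∃ I : Finset ι, I.card ≤ 2 * k ∧
      ∀ i ∉ I, ∀ a b : A, Pi.mulSingle i (a * b * a⁻¹ * b⁻¹) ∈ S := by
  classical
  let lo : LinearOrder ι := LinearOrder.lift' (Fintype.equivFin ι) (Equiv.injective _)
  let J1 : Finset ι := univ.filter (fun i => ∃ a : A, ∀ s ∈ S, (∀ j < i, s j = 1) → s i ≠ a)
  let J2 : Finset ι := univ.filter (fun i => ∃ a : A, ∀ s ∈ S, (∀ j, i < j → s j = 1) → s i ≠ a)
  have h1 : J1.card < k := by
    have := card_bad1 S c hc J1 (fun i hi => (Finset.mem_filter.mp hi).2)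
    exact (Nat.pow_lt_pow_iff_right (by norm_num)).mp (lt_of_le_of_lt this hX)
  have h2 : J2.card < k := by
    have := @card_bad1 ιᵒᵈ A X _ _ _ _ S c hc J2 (fun i hi => (Finset.mem_filter.mp hi).2)
    exact (Nat.pow_lt_pow_iff_right (by norm_num)).mp (lt_of_le_of_lt this hX)
  refine ⟨J1 ∪ J2, ?_, ?_⟩
  · have := Finset.card_union_le J1 J2
    omega
  · intro i hi a b
    rw [Finset.mem_union, not_or] at hi
    obtain ⟨hi1, hi2⟩ := hi
    simp only [J1, J2, Finset.mem_filter, Finset.mem_univ, true_and, not_exists, not_forall] at hi1 hi2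
    obtain ⟨s, hs, hs1, hs2⟩ := hi1 a
    obtain ⟨t, ht, ht1, ht2⟩ := hi2 b
    rw [not_not] at hs2 ht2
    have : Pi.mulSingle i (a * b * a⁻¹ * b⁻¹) = s * t * s⁻¹ * t⁻¹ := by
      funext j
      simp only [Pi.mul_apply, Pi.inv_apply]
      rcases lt_trichotomy j i with h | h | h
      · rw [Pi.mulSingle_eq_of_ne h.ne, hs1 j h]
        simp
      · subst h
        rw [Pi.mulSingle_eq_same, hs2, ht2]
      · rw [Pi.mulSingle_eq_of_ne h.ne', ht1 j h]
        simp
    rw [this]
    exact S.mul_mem (S.mul_mem (S.mul_mem hs ht) (S.inv_mem hs)) (S.inv_mem ht)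

end H522R2.LS
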