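import Pool.Agent.H522R2.LS.PerEval2
import Pool.Agent.H522R2.LS.Game
import Pool.Agent.H522R2.LS.Support

/-!
The lower bound for locally symmetric circuits for the permanent.
-/

namespace H522R2.LS

open Finset BigOperators

set_option linter.unusedSectionVars false

/-- the group generated by the 3-cycles on four points -/
def A4 : Subgroup (Equiv.Perm (Fin 4)) :=
  Subgroup.closure {g | ∃ x y z, x ≠ y ∧ y ≠ z ∧ x ≠ z ∧ g = cyc x y z}

lemma cyc_mem (x y z : Fin 4) (h1 : x ≠ y) (h2 : y ≠ z) (h3 : x ≠ z) : cyc x y z ∈ A4 :=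
  Subgroup.subset_closure ⟨x, y, z, h1, h2, h3, rfl⟩

lemma flp_comm (t : Fin 3) : ∃ a b : A4, ((a * b * a⁻¹ * b⁻¹ : A4) : Equiv.Perm (Fin 4)) = flp t := by
  have h : ∀ t : Fin 3, ∃ x y z x' y' z' : Fin 4, x ≠ y ∧ y ≠ z ∧ x ≠ z ∧ x' ≠ y' ∧ y' ≠ z' ∧ x' ≠ z' ∧
      flp t = cyc x y z * cyc x' y' z' * (cyc x y z)⁻¹ * (cyc x' y' z')⁻¹ := by decide
  obtain ⟨x, y, z, x', y', z', h1, h2, h3, h4, h5, h6, h7⟩ := h t
  exact ⟨⟨_, cyc_mem x y z h1 h2 h3⟩, ⟨_, cyc_mem x' y' z' h4 h5 h6⟩, h7.symm⟩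

variable {K : Type} [Field K] [CharZero K]
variable {Ω : Type} [Fintype Ω] [DecidableEq Ω] {N : ℕ} {Δ : Type} [Fintype Δ] [DecidableEq Δ]

/-- blocks -/
abbrev Ix (N : ℕ) : Type := Fin N × Bool × Fin 3

/-- the permutation of `Ω` given by even permutations of the blocks -/
def FF (e : Pos N Δ ≃ Ω) (g : Ix N → A4) : Equiv.Perm Ω :=
  e.permCongr (act (fun v => (g v : Equiv.Perm (Fin 4))))

lemma FF_one (e : Pos N Δ ≃ Ω) : FF e 1 = 1 := by
  have h : act (Δ := Δ) (fun v : Ix N => ((1 : Ix N → A4) v : Equiv.Perm (Fin 4))) = 1 := act_one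
  unfold FF
  rw [h]
  ext x
  simp [Equiv.permCongr_apply]

lemma FF_mul (e : Pos N Δ ≃ Ω) (g h : Ix N → A4) : FF e (g * h) = FF e g * FF e h := by
  have h1 : act (Δ := Δ) (fun v : Ix N => ((g * h) v : Equiv.Perm (Fin 4)))
      = act (fun v => (g v : Equiv.Perm (Fin 4))) * act (fun v => (h v : Equiv.Perm (Fin 4))) :=
    act_mul _ _
  unfold FF
  rw [h1]
  ext x
  simp [Equiv.permCongr_apply]

lemma diag_mul (g h : Equiv.Perm Ω) : diag (g * h) = diag g ∘ diag h := rfl

lemma diag_one : diag (1 : Equiv.Perm Ω) = id := rfl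

/-- the permutations fixing a gate -/
def SS (e : Pos N Δ ≃ Ω) (C : Circuit K (Ω × Ω)) (h : C.G) : Subgroup (Ix N → A4) where
  carrier := {g | ∃ p, IsAut C p (diag (FF e g)) ∧ p h = h}
  one_mem' := ⟨1, by rw [FF_one, diag_one]; exact IsAut.one C, rfl⟩
  mul_mem' := by
    rintro g g' ⟨p, hp, hp'⟩ ⟨q, hq, hq'⟩
    refine ⟨p * q, ?_, ?_⟩
    · rw [FF_mul, diag_mul]; exact hp.mul hq
    · rw [Equiv.Perm.mul_apply, hq', hp']
  inv_mem' := by
    rintro g ⟨p, hp, hp'⟩
    refine ⟨p⁻¹, hp.inv ?_, ?_⟩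
    · intro x
      have h1 : diag (FF e g⁻¹) (diag (FF e g) x) = diag (FF e g⁻¹ * FF e g) x := rfl
      rw [h1, ← FF_mul, inv_mul_cancel, FF_one]
      rfl
    · rw [Equiv.Perm.inv_eq_iff_eq, hp']

lemma mem_SS (e : Pos N Δ ≃ Ω) (C : Circuit K (Ω × Ω)) (h : C.G) (g : Ix N → A4) :
    g ∈ SS e C h ↔ ∃ p, IsAut C p (diag (FF e g)) ∧ p h = h := Iff.rfl

open Classical in
/-- the bad blocks of a gate -/
noncomputable def II (e : Pos N Δ ≃ Ω) (C : Circuit K (Ω × Ω)) (h : C.G) : Finset (Ix N) :=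
  univ.filter (fun v => ¬ ∀ a b : A4, Pi.mulSingle v (a * b * a⁻¹ * b⁻¹) ∈ SS e C h)

lemma notMem_II (e : Pos N Δ ≃ Ω) (C : Circuit K (Ω × Ω)) (h : C.G) (v : Ix N) :
    v ∉ II e C h ↔ ∀ a b : A4, Pi.mulSingle v (a * b * a⁻¹ * b⁻¹) ∈ SS e C h := by
  unfold II
  simp

lemma isAut_inv (e : Pos N Δ ≃ Ω) (C : Circuit K (Ω × Ω)) (g : Ix N → A4) (p : Equiv.Perm C.G)
    (hp : IsAut C p (diag (FF e g))) : IsAut C p⁻¹ (diag (FF e g⁻¹)) := by
  refine hp.inv ?_
  intro x
  have h1 : diag (FF e g⁻¹) (diag (FF e g) x) = diag (FF e g⁻¹ * FF e g) x := rfl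
  rw [h1, ← FF_mul, inv_mul_cancel, FF_one]
  rfl

lemma II_sub (e : Pos N Δ ≃ Ω) (C : Circuit K (Ω × Ω)) (h : C.G) (g : Ix N → A4) (p : Equiv.Perm C.G)
    (hp : IsAut C p (diag (FF e g))) : II e C (p h) ⊆ II e C h := by
  intro v hv
  by_contra hcon
  apply (notMem_II e C (p h) v).mpr _ hv
  rw [notMem_II] at hcon
  intro a b
  have h1 := hcon ((g v)⁻¹ * a * g v) ((g v)⁻¹ * b * g v)
  obtain ⟨q, hq, hqh⟩ := h1
  have h2 : Pi.mulSingle v (a * b * a⁻¹ * b⁻¹) = g * Pi.mulSingle v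
      (((g v)⁻¹ * a * g v) * ((g v)⁻¹ * b * g v) * ((g v)⁻¹ * a * g v)⁻¹ * ((g v)⁻¹ * b * g v)⁻¹) * g⁻¹ := by
    funext w
    simp only [Pi.mul_apply, Pi.inv_apply]
    by_cases hw : w = v
    · subst hw
      rw [Pi.mulSingle_eq_same, Pi.mulSingle_eq_same]
      group
    · rw [Pi.mulSingle_eq_of_ne hw, Pi.mulSingle_eq_of_ne hw]
      group
  rw [h2]
  refine ⟨p * q * p⁻¹, ?_, ?_⟩
  · rw [FF_mul, FF_mul, diag_mul, diag_mul]
    exact (hp.mul hq).mul (isAut_inv e C g p hp)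
  · rw [Equiv.Perm.mul_apply, Equiv.Perm.mul_apply]
    have : p⁻¹ (p h) = h := by simp
    rw [this, hqh]

lemma II_inv (e : Pos N Δ ≃ Ω) (C : Circuit K (Ω × Ω)) (h : C.G) (g : Ix N → A4) (p : Equiv.Perm C.G)
    (hp : IsAut C p (diag (FF e g))) : II e C (p h) = II e C h := by
  apply Finset.Subset.antisymm (II_sub e C h g p hp)
  have h1 := II_sub e C (p h) g⁻¹ p⁻¹ (isAut_inv e C g p hp)
  have : p⁻¹ (p h) = h := by simp
  rwa [this] at h1

/-- bad vertices -/
noncomputable def DD (e : Pos N Δ ≃ Ω) (C : Circuit K (Ω × Ω)) (h : C.G) : Finset (Fin N) :=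
  (II e C h).image Prod.fst

lemma notMem_DD (e : Pos N Δ ≃ Ω) (C : Circuit K (Ω × Ω)) (h : C.G) (i : Fin N) (hi : i ∉ DD e C h)
    (s : Bool) (j : Fin 3) (a b : A4) : Pi.mulSingle (i, s, j) (a * b * a⁻¹ * b⁻¹) ∈ SS e C h := by
  have : (i, s, j) ∉ II e C h := by
    intro hm
    exact hi (Finset.mem_image.mpr ⟨_, hm, rfl⟩)
  exact (notMem_II e C h _).mp this a b

lemma card_DD (e : Pos N Δ ≃ Ω) (C : Circuit K (Ω × Ω)) (hsym : ∀ g : Ix N → A4, C.SymmUnder (diag (FF e g)))
    (k : ℕ) (hk : Fintype.card C.G < 2 ^ k) (h : C.G) : (DD e C h).card ≤ 2 * k := by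
  classical
  have hsym' : ∀ g : Ix N → A4, ∃ p, IsAut C p (diag (FF e g)) :=
    fun g => (symmUnder_iff C _).mp (hsym g)
  choose q hq using hsym'
  obtain ⟨I, hI, hI2⟩ := support (SS e C h) (fun g => q g h) (by
    intro g g' hgg
    refine ⟨(q g)⁻¹ * q g', ?_, ?_⟩
    · rw [FF_mul, diag_mul]
      exact (isAut_inv e C g (q g) (hq g)).mul (hq g')
    · rw [Equiv.Perm.mul_apply, Equiv.Perm.inv_eq_iff_eq]
      exact hgg.symm) k hk
  refine le_trans Finset.card_image_le (le_trans (Finset.card_le_card ?_) hI)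
  intro v hv
  by_contra hcon
  exact (notMem_II e C h v).mpr (hI2 v hcon) hv

/-- the gauge element of a move from `i` to `j` of type `t` is available -/
lemma move_one (e : Pos N Δ ≃ Ω) (C : Circuit K (Ω × Ω)) (h : C.G) {L : Type} [Field L] (ω : L)
    (ρ : Fin 3 → Equiv.Perm (Fin N)) (h0 : ρ 0 = 1) (i j : Fin N) (t : Fin 3) (hij : ρ t i = j)
    (hi : i ∉ DD e C h) (hj : j ∉ DD e C h) :
    ∃ g ∈ SS e C h, ∀ v : Ω × Ω, wt ω ρ (tw i) (e.symm (diag (FF e g) v).1) (e.symm (diag (FF e g) v).2)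
      = wt ω ρ (tw j) (e.symm v.1) (e.symm v.2) := by
  classical
  obtain ⟨a, b, hab⟩ := flp_comm t
  obtain ⟨a0, b0, hab0⟩ := flp_comm 0
  have hflp0 : flp 0 = 1 := rfl
  let τ : Fin N → Bool → Fin 3 := fun k s => if s = false then (if k = i then t else 0)
    else (if k = j then t else 0)
  let g : Ix N → A4 := fun v => if (v.2.1 = false ∧ v.1 = i) ∨ (v.2.1 = true ∧ v.1 = j)
    then a * b * a⁻¹ * b⁻¹ else 1
  have hg : ∀ v, (g v : Equiv.Perm (Fin 4)) = flp (τ v.1 v.2.1) := by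
    rintro ⟨k, s, j'⟩
    simp only [g, τ]
    cases s
    · by_cases hk : k = i
      · simp only [hk, and_self, true_or, if_true]
        exact hab
      · simp [hk, hflp0]
    · by_cases hk : k = j
      · simp only [hk, and_self, or_true, if_true]
        simpa using hab
      · simp [hk, hflp0]
  refine ⟨g, ?_, ?_⟩
  · apply Subgroup.pi_mem_of_mulSingle_mem
    rintro ⟨k, s, j'⟩
    by_cases hc : (s = false ∧ k = i) ∨ (s = true ∧ k = j)
    · have : g (k, s, j') = a * b * a⁻¹ * b⁻¹ := if_pos hc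
      rw [this]
      rcases hc with ⟨_, rfl⟩ | ⟨_, rfl⟩
      · exact notMem_DD e C h k hi s j' a b
      · exact notMem_DD e C h k hj s j' a b
    · have : g (k, s, j') = 1 := if_neg hc
      rw [this, Pi.mulSingle_one]
      exact Subgroup.one_mem _
  · intro v
    have hgg : (fun v => (g v : Equiv.Perm (Fin 4))) = (fun v : Ix N => flp (τ v.1 v.2.1)) := funext hg
    have h1 : ∀ x : Ω, e.symm (FF e g x) = act (fun v : Ix N => flp (τ v.1 v.2.1)) (e.symm x) := by
      intro x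
      unfold FF
      rw [hgg, Equiv.permCongr_apply, Equiv.symm_apply_apply]
    show wt ω ρ (tw i) (e.symm (FF e g v.1)) (e.symm (FF e g v.2)) = _
    rw [h1, h1]
    apply wt_gauge
    intro k t'
    have h2 : τ k false = if k = i then t else 0 := by simp [τ]
    have h3 : τ (ρ t' k) true = if ρ t' k = j then t else 0 := by simp [τ]
    rw [h2, h3]
    exact tw_move ρ h0 i j t hij k t'

lemma move_all (e : Pos N Δ ≃ Ω) (C : Circuit K (Ω × Ω)) (h : C.G) {L : Type} [Field L] (ω : L)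
    (π : Equiv.Perm (Fin N)) (i j : Fin N) (hij : Relation.EqvGen (adj π (DD e C h)) i j) :
    ∃ g ∈ SS e C h, ∀ v : Ω × Ω,
      wt ω (rho π) (tw i) (e.symm (diag (FF e g) v).1) (e.symm (diag (FF e g) v).2)
      = wt ω (rho π) (tw j) (e.symm v.1) (e.symm v.2) := by
  induction hij with
  | rel i j hij =>
    obtain ⟨h1, h2, t, h3⟩ := hij
    exact move_one e C h ω (rho π) rfl i j t h3 h1 h2
  | refl i =>
    refine ⟨1, Subgroup.one_mem _, fun v => ?_⟩
    rw [FF_one]
    rfl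
  | symm i j _ ih =>
    obtain ⟨g, hg, h1⟩ := ih
    refine ⟨g⁻¹, Subgroup.inv_mem _ hg, fun v => ?_⟩
    rw [← h1]
    have h2 : diag (FF e g) (diag (FF e g⁻¹) v) = v := by
      have : diag (FF e g) (diag (FF e g⁻¹) v) = diag (FF e g * FF e g⁻¹) v := rfl
      rw [this, ← FF_mul, mul_inv_cancel, FF_one]
      rfl
    rw [h2]
  | trans i j k _ _ ih1 ih2 =>
    obtain ⟨g, hg, h1⟩ := ih1
    obtain ⟨g', hg', h2⟩ := ih2
    refine ⟨g * g', Subgroup.mul_mem _ hg hg', fun v => ?_⟩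
    rw [FF_mul, ← h2, ← h1]
    rfl

/-- the value of the permanent polynomial at a point -/
lemma aeval_per {L : Type} [Field L] [Algebra K L] (e : Pos N Δ ≃ Ω) (ω : L)
    (ρ : Fin 3 → Equiv.Perm (Fin N)) (b : Fin N → Fin 3 → ZMod 2) :
    MvPolynomial.aeval (fun v : Ω × Ω => wt ω ρ b (e.symm v.1) (e.symm v.2)) (perPoly K Ω)
      = ∑ σ : Equiv.Perm (Pos N Δ), term ω ρ b σ := by
  unfold perPoly term
  rw [map_sum, ← Equiv.sum_comp e.permCongr]
  refine Finset.sum_congr rfl (fun σ _ => ?_)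
  rw [map_prod, ← Equiv.prod_comp e]
  refine Finset.prod_congr rfl (fun x _ => ?_)
  rw [MvPolynomial.aeval_X]
  simp [Equiv.permCongr_apply]

lemma exists_omega (L : Type) [Field L] [IsAlgClosed L] [CharZero L] : ∃ ω : L, ω ^ 3 = 1 ∧ ω ≠ 1 := by
  obtain ⟨s, hs⟩ := IsAlgClosed.exists_pow_nat_eq (-3 : L) (n := 2) (by norm_num)
  refine ⟨(-1 + s) / 2, ?_, ?_⟩
  · have h2 : (2 : L) ≠ 0 := two_ne_zero
    field_simp
    have : (-1 + s) ^ 3 = -1 + 3 * s - 3 * s ^ 2 + s ^ 2 * s := by ring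
    rw [this, hs]
    ring
  · intro h
    have h2 : (2 : L) ≠ 0 := two_ne_zero
    rw [div_eq_iff h2] at h
    have h3 : s = 3 := by linear_combination h
    rw [h3] at hs
    have : (12 : L) = 0 := by linear_combination hs
    norm_num at this

/-- **Core lower bound.** -/
theorem core_bound (π : Equiv.Perm (Fin N))
    (hπ : ∀ U : Finset (Fin N), N ≤ 3 * U.card → 3 * U.card ≤ 2 * N →
      N / 60 < (Pool.Agent.Helper600R2.bd (finRotate N) U).card ∨
      N / 60 < (Pool.Agent.Helper600R2.bd π U).card)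
    (k : ℕ) (hN : 2 ≤ N) (hk : 480 * k ≤ N) (e : Pos N Δ ≃ Ω) (C : Circuit K (Ω × Ω))
    (hval : C.val C.out = perPoly K Ω) (hsym : ∀ g : Ix N → A4, C.SymmUnder (diag (FF e g))) :
    2 ^ k ≤ Fintype.card C.G := by
  classical
  by_contra hlt
  push Not at hlt
  obtain ⟨ω, hω, hω1⟩ := exists_omega (AlgebraicClosure K)
  have hcard := card_DD e C hsym k hlt
  let M : Fin N → (Ω × Ω) → AlgebraicClosure K :=
    fun i v => wt ω (rho π) (tw i) (e.symm v.1) (e.symm v.2)
  let M0 : (Ω × Ω) → AlgebraicClosure K :=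
    fun v => wt ω (rho π) (fun _ _ => 0) (e.symm v.1) (e.symm v.2)
  have hne : ∀ g h, (core π (DD e C g ∪ DD e C h)).Nonempty := by
    intro g h
    apply core_nonempty (by omega) π hπ
    have h1 := Finset.card_union_le (DD e C g) (DD e C h)
    have h2 := hcard g
    have h3 := hcard h
    omega
  have hgame := game C M M0 (DD e C) (core π) hne (fun g h => core_mono π _ _)
    (by
      intro g i hi i' hi'
      obtain ⟨g0, ⟨p, hp, hpg⟩, h1⟩ := move_all e C g ω π i i' (core_conn π _ i i' hi hi')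
      refine ⟨p, _, hp, hpg, ?_, ?_⟩
      · intro h
        unfold DD
        rw [II_inv e C h g0 p hp]
      · funext v
        exact h1 v)
    (by
      intro g x hx i hi
      have hiD := core_notMem hN π _ i hi
      by_contra hne
      have h1 : ∃ a a', x = (e (.blk i true 0 a), e (.blk i false 0 a')) := by
        by_contra hcon
        apply hne
        show wt ω (rho π) (tw i) (e.symm x.1) (e.symm x.2)
          = wt ω (rho π) (fun _ _ => 0) (e.symm x.1) (e.symm x.2)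
        have hadj : Adj (rho π) (tw i) (e.symm x.1) (e.symm x.2)
            ↔ Adj (rho π) (fun _ _ => 0) (e.symm x.1) (e.symm x.2) := by
          rcases hx1 : e.symm x.1 with ⟨i1, s1, j1, a1⟩ | ⟨i1, l1⟩ | δ1 <;>
            rcases hx2 : e.symm x.2 with ⟨i2, s2, j2, a2⟩ | ⟨i2, l2⟩ | δ2
          · rcases s1 with _ | _ <;> rcases s2 with _ | _
            · exact Iff.rfl
            · exact Iff.rfl
            · show (j1 = j2 ∧ rho π j1 i2 = i1 ∧ lab a2 j1 + tw i i2 j1 = lab a1 j1)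
                ↔ (j1 = j2 ∧ rho π j1 i2 = i1 ∧ lab a2 j1 + 0 = lab a1 j1)
              by_cases hc : i2 = i ∧ j1 = 0
              · obtain ⟨rfl, rfl⟩ := hc
                constructor
                · rintro ⟨h1, h2, _⟩
                  exfalso
                  apply hcon
                  refine ⟨a1, a2, ?_⟩
                  have h3 : i1 = i2 := by rw [← h2]; rfl
                  rw [Equiv.symm_apply_eq] at hx1 hx2
                  rw [Prod.ext_iff]
                  exact ⟨by rw [hx1, h3], by rw [hx2, ← h1]⟩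
                · rintro ⟨h1, h2, _⟩
                  exfalso
                  apply hcon
                  refine ⟨a1, a2, ?_⟩
                  have h3 : i1 = i2 := by rw [← h2]; rfl
                  rw [Equiv.symm_apply_eq] at hx1 hx2
                  rw [Prod.ext_iff]
                  exact ⟨by rw [hx1, h3], by rw [hx2, ← h1]⟩
              · have : tw i i2 j1 = 0 := if_neg hc
                rw [this]
            · exact Iff.rfl
          · cases s1 <;> exact Iff.rfl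
          · cases s1 <;> exact Iff.rfl
          · cases s2 <;> exact Iff.rfl
          · exact Iff.rfl
          · exact Iff.rfl
          · cases s2 <;> exact Iff.rfl
          · exact Iff.rfl
          · exact Iff.rfl
        unfold wt
        by_cases h : Adj (rho π) (tw i) (e.symm x.1) (e.symm x.2)
        · rw [if_pos h, if_pos (hadj.mp h)]
        · rw [if_neg h, if_neg (fun h' => h (hadj.mpr h'))]
      obtain ⟨a, a', rfl⟩ := h1
      obtain ⟨c, d, hcd⟩ := flp_comm 1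
      obtain ⟨p, hp, hpg⟩ := notMem_DD e C g i hiD false 0 c d
      have h2 := hp.kind g
      rw [hpg, hx] at h2
      simp only [Kind.map, Kind.var.injEq, diag, Prod.mk.injEq] at h2
      have h3 := h2.2
      unfold FF at h3
      rw [Equiv.permCongr_apply, Equiv.symm_apply_apply] at h3
      have h4 := e.injective h3
      have h5 : act (fun v => ((Pi.mulSingle (i, false, 0) (c * d * c⁻¹ * d⁻¹) : Ix N → A4) v :
          Equiv.Perm (Fin 4))) (.blk i false 0 a' : Pos N Δ) = .blk i false 0 (flp 1 a') := by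
        show Pos.blk i false 0 (((Pi.mulSingle (i, false, 0) (c * d * c⁻¹ * d⁻¹) : Ix N → A4) (i, false, 0) :
          Equiv.Perm (Fin 4)) a') = _
        rw [Pi.mulSingle_eq_same, hcd]
      rw [h5] at h4
      simp only [Pos.blk.injEq] at h4
      have h6 : ∀ a' : Fin 4, a' ≠ flp 1 a' := by decide
      exact h6 a' h4.2.2.2)
  obtain ⟨i, hi⟩ := hne C.out C.out
  rw [Finset.union_self] at hi
  have h1 := hgame (C.rk C.out) C.out rfl i hi
  unfold ev at h1
  rw [hval] at h1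
  have h2 := aeval_per (K := K) e ω (rho π) (tw i)
  have h3 := aeval_per (K := K) e ω (rho π) (fun _ _ => 0)
  have h4 : ∑ k, ∑ t, tw i k t ≠ 0 := by
    have : ∀ k : Fin N, ∑ t, tw i k t = if k = i then 1 else 0 := by
      intro k
      rw [Finset.sum_eq_single 0]
      · simp [tw]
      · intro t _ ht
        simp [tw, ht]
      · simp
    rw [Finset.sum_congr rfl (fun k _ => this k)]
    simp
  have h5 := per_twisted (N := N) (Δ := Δ) ω hω hω1 (rho π) (tw i) h4
  have h6 := per_untwisted (N := N) (Δ := Δ) ω hω hω1 (rho π)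
  apply h6
  rw [← h3, ← h5, ← h2]
  exact h1.symm

end H522R2.LS
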