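import Pool.Agent.H522R2.LS.Gadget

/-!
Evaluation of the permanent of the gadget matrices.
-/

namespace H522R2.LS

open Finset BigOperators

set_option linter.unusedSectionVars false

variable {N : ℕ} {Δ : Type} [Fintype Δ] [DecidableEq Δ] {L : Type} [Field L]

/-- the term of a permutation -/
noncomputable def term (ω : L) (ρ : Fin 3 → Equiv.Perm (Fin N)) (b : Fin N → Fin 3 → ZMod 2)
    (σ : Equiv.Perm (Pos N Δ)) : L := ∏ x, wt ω ρ b x (σ x)

/-- rotation of the three copies of a codeword -/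
def rot (s : Bool) (i : Fin N) (a : Fin 4) : Equiv.Perm (Pos N Δ) where
  toFun x := match x with
    | .blk i' s' j a' => if i' = i ∧ s' = s ∧ a' = a then .blk i' s' (j + 1) a' else .blk i' s' j a'
    | .host i l => .host i l
    | .dum δ => .dum δ
  invFun x := match x with
    | .blk i' s' j a' => if i' = i ∧ s' = s ∧ a' = a then .blk i' s' (j + 2) a' else .blk i' s' j a'
    | .host i l => .host i l
    | .dum δ => .dum δ
  left_inv x := by
    rcases x with ⟨i', s', j, a'⟩ | ⟨i, l⟩ | δ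
    · by_cases h : i' = i ∧ s' = s ∧ a' = a
      · simp only [if_pos h]
        congr 1
        revert j; decide
      · simp only [if_neg h]
    · rfl
    · rfl
  right_inv x := by
    rcases x with ⟨i', s', j, a'⟩ | ⟨i, l⟩ | δ
    · by_cases h : i' = i ∧ s' = s ∧ a' = a
      · simp only [if_pos h]
        congr 1
        revert j; decide
      · simp only [if_neg h]
    · rfl
    · rfl

lemma rot_blk (s : Bool) (i : Fin N) (a : Fin 4) (j : Fin 3) :
    rot (Δ := Δ) s i a (.blk i s j a) = .blk i s (j + 1) a := by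
  simp [rot]

lemma rot_symm_blk (s : Bool) (i : Fin N) (a : Fin 4) (j : Fin 3) :
    (rot (Δ := Δ) s i a).symm (.blk i s j a) = .blk i s (j + 2) a := by
  simp [rot]

lemma rot_ne (s : Bool) (i : Fin N) (a : Fin 4) (x : Pos N Δ) (h : ∀ j, x ≠ .blk i s j a) :
    rot s i a x = x := by
  rcases x with ⟨i', s', j, a'⟩ | ⟨i, l⟩ | δ
  · by_cases h' : i' = i ∧ s' = s ∧ a' = a
    · obtain ⟨rfl, rfl, rfl⟩ := h'
      exact absurd rfl (h j)
    · simp [rot, h']
  · rfl
  · rfl

lemma rot_symm_ne (s : Bool) (i : Fin N) (a : Fin 4) (x : Pos N Δ) (h : ∀ j, x ≠ .blk i s j a) :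
    (rot s i a).symm x = x := by
  rw [Equiv.symm_apply_eq, rot_ne s i a x h]

/-- gadget positions -/
def isB : Pos N Δ → Bool
  | .blk _ _ _ _ => true
  | _ => false

lemma isB_rot (s : Bool) (i : Fin N) (a : Fin 4) (x : Pos N Δ) : isB (rot s i a x) = isB x := by
  rcases x with ⟨i', s', j, a'⟩ | ⟨i, l⟩ | δ
  · simp only [rot, Equiv.coe_fn_mk]
    split_ifs <;> rfl
  · rfl
  · rfl

lemma isB_rot_symm (s : Bool) (i : Fin N) (a : Fin 4) (x : Pos N Δ) :
    isB ((rot s i a).symm x) = isB x := by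
  rw [← isB_rot s i a ((rot s i a).symm x), Equiv.apply_symm_apply]

/-- the partner of a position: the column of a row on the side `false`, the row of a column on the side
`true` -/
def part (s : Bool) (σ : Equiv.Perm (Pos N Δ)) (x : Pos N Δ) : Pos N Δ :=
  if s then σ.symm x else σ x

/-- the number of copies with a gadget partner -/
def cnt (s : Bool) (i : Fin N) (a : Fin 4) (σ : Equiv.Perm (Pos N Δ)) : ℕ :=
  (univ.filter (fun j : Fin 3 => isB (part s σ (.blk i s j a)) = true)).card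

/-- the transformation of the permutations at a site -/
def tr (s : Bool) (i : Fin N) (a : Fin 4) : Equiv.Perm (Pos N Δ) ≃ Equiv.Perm (Pos N Δ) :=
  if s then Equiv.mulLeft (rot s i a)⁻¹ else Equiv.mulRight (rot s i a)

lemma isB_part_tr (s s' : Bool) (i i' : Fin N) (a a' : Fin 4)
    (σ : Equiv.Perm (Pos N Δ)) : ∃ c : Fin 3 → Fin 3, Function.Bijective c ∧
      ∀ j, isB (part s (tr s' i' a' σ) (.blk i s j a)) = isB (part s σ (.blk i s (c j) a)) := by
  by_cases hsame : i' = i ∧ s' = s ∧ a' = a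
  · obtain ⟨rfl, rfl, rfl⟩ := hsame
    refine ⟨fun j => j + 1, by decide, ?_⟩
    intro j
    cases s'
    · show isB (σ (rot false i' a' (.blk i' false j a'))) = isB (σ (.blk i' false (j + 1) a'))
      rw [rot_blk]
    · show isB ((((rot true i' a')⁻¹ * σ)⁻¹ : Equiv.Perm (Pos N Δ)) (.blk i' true j a'))
        = isB (σ.symm (.blk i' true (j + 1) a'))
      rw [mul_inv_rev, inv_inv, Equiv.Perm.mul_apply, rot_blk]
      rfl
  · refine ⟨id, Function.bijective_id, ?_⟩
    intro j
    have hne : ∀ k, (Pos.blk i s j a : Pos N Δ) ≠ .blk i' s' k a' := by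
      intro k h
      simp only [Pos.blk.injEq] at h
      exact hsame ⟨h.1.symm, h.2.1.symm, h.2.2.2.symm⟩
    cases s' <;> cases s
    · show isB (σ (rot false i' a' (.blk i false j a))) = isB (σ (.blk i false j a))
      rw [rot_ne _ _ _ _ hne]
    · show isB (((σ * rot false i' a')⁻¹ : Equiv.Perm (Pos N Δ)) (.blk i true j a))
        = isB (σ.symm (.blk i true j a))
      rw [mul_inv_rev, Equiv.Perm.mul_apply]
      exact isB_rot_symm _ _ _ _
    · show isB ((rot true i' a').symm (σ (.blk i false j a))) = isB (σ (.blk i false j a))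
      exact isB_rot_symm _ _ _ _
    · show isB ((((rot true i' a')⁻¹ * σ)⁻¹ : Equiv.Perm (Pos N Δ)) (.blk i true j a))
        = isB (σ.symm (.blk i true j a))
      rw [mul_inv_rev, inv_inv, Equiv.Perm.mul_apply, rot_ne _ _ _ _ hne]
      rfl

lemma cnt_tr (s s' : Bool) (i i' : Fin N) (a a' : Fin 4) (σ : Equiv.Perm (Pos N Δ)) :
    cnt s i a (tr s' i' a' σ) = cnt s i a σ := by
  obtain ⟨c, hc, h⟩ := isB_part_tr s s' i i' a a' σ
  unfold cnt
  refine Finset.card_bij (fun j _ => c j) ?_ ?_ ?_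
  · intro j hj
    rw [Finset.mem_filter] at hj ⊢
    rw [h j] at hj
    exact ⟨Finset.mem_univ _, hj.2⟩
  · intro j _ j' _ e
    exact hc.1 e
  · intro j hj
    obtain ⟨j', rfl⟩ := hc.2 j
    refine ⟨j', ?_, rfl⟩
    rw [Finset.mem_filter] at hj ⊢
    rw [h j']
    exact ⟨Finset.mem_univ _, hj.2⟩

section weights

variable (ω : L) (hω : ω ^ 3 = 1) (ρ : Fin 3 → Equiv.Perm (Fin N)) (b : Fin N → Fin 3 → ZMod 2)

include hω in
lemma pow_shift (j : Fin 3) : ω ^ ((j + 2 : Fin 3) : ℕ) * ω = ω ^ (j : ℕ) := by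
  fin_cases j
  · show ω ^ 2 * ω = ω ^ 0
    rw [pow_zero, ← hω]; ring
  · show ω ^ 0 * ω = ω ^ 1
    ring
  · show ω ^ 1 * ω = ω ^ 2
    ring

lemma wt_zero {x z : Pos N Δ} (h : ¬ Adj ρ b x z) : wt ω ρ b x z = 0 := if_neg h

lemma wt_pos {x z : Pos N Δ} (h : Adj ρ b x z) : wt ω ρ b x z = ω ^ ex x z := if_pos h

include hω in
lemma wt_rot_row (i : Fin N) (a : Fin 4) (j : Fin 3) (z : Pos N Δ) :
    wt ω ρ b (.blk i false (j + 2) a) z * (if isB z then ω else 1) = wt ω ρ b (.blk i false j a) z := by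
  rcases z with ⟨i', s', j', a'⟩ | ⟨i', l'⟩ | δ'
  · have hB : isB (.blk i' s' j' a' : Pos N Δ) = true := rfl
    rw [if_pos hB]
    cases s'
    · by_cases h : Adj ρ b (.blk i false j a : Pos N Δ) (.blk i' false j' a')
      · have h2 : Adj ρ b (.blk i false (j + 2) a : Pos N Δ) (.blk i' false j' a') := h
        rw [wt_pos ω ρ b h, wt_pos ω ρ b h2]
        exact pow_shift ω hω j
      · have h2 : ¬ Adj ρ b (.blk i false (j + 2) a : Pos N Δ) (.blk i' false j' a') := h
        rw [wt_zero ω ρ b h, wt_zero ω ρ b h2, zero_mul]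
    · have h : ¬ Adj ρ b (.blk i false j a : Pos N Δ) (.blk i' true j' a') := fun h => h
      have h2 : ¬ Adj ρ b (.blk i false (j + 2) a : Pos N Δ) (.blk i' true j' a') := fun h => h
      rw [wt_zero ω ρ b h, wt_zero ω ρ b h2, zero_mul]
  · have hB : ¬ (isB (.host i' l' : Pos N Δ) = true) := by simp [isB]
    rw [if_neg hB, mul_one]
    by_cases h : Adj ρ b (.blk i false j a : Pos N Δ) (.host i' l')
    · have h2 : Adj ρ b (.blk i false (j + 2) a : Pos N Δ) (.host i' l') := h
      rw [wt_pos ω ρ b h, wt_pos ω ρ b h2]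
      rfl
    · have h2 : ¬ Adj ρ b (.blk i false (j + 2) a : Pos N Δ) (.host i' l') := h
      rw [wt_zero ω ρ b h, wt_zero ω ρ b h2]
  · have h : ¬ Adj ρ b (.blk i false j a : Pos N Δ) (.dum δ') := fun h => h
    have h2 : ¬ Adj ρ b (.blk i false (j + 2) a : Pos N Δ) (.dum δ') := fun h => h
    rw [wt_zero ω ρ b h, wt_zero ω ρ b h2, zero_mul]

include hω in
lemma wt_rot_col (i : Fin N) (a : Fin 4) (j : Fin 3) (x : Pos N Δ) :
    wt ω ρ b x (.blk i true (j + 2) a) * (if isB x then ω else 1) = wt ω ρ b x (.blk i true j a) := by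
  rcases x with ⟨i', s', j', a'⟩ | ⟨i', l'⟩ | δ'
  · have hB : isB (.blk i' s' j' a' : Pos N Δ) = true := rfl
    rw [if_pos hB]
    cases s'
    · have h : ¬ Adj ρ b (.blk i' false j' a' : Pos N Δ) (.blk i true j a) := fun h => h
      have h2 : ¬ Adj ρ b (.blk i' false j' a' : Pos N Δ) (.blk i true (j + 2) a) := fun h => h
      rw [wt_zero ω ρ b h, wt_zero ω ρ b h2, zero_mul]
    · by_cases h : Adj ρ b (.blk i' true j' a' : Pos N Δ) (.blk i true j a)
      · have h2 : Adj ρ b (.blk i' true j' a' : Pos N Δ) (.blk i true (j + 2) a) := h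
        rw [wt_pos ω ρ b h, wt_pos ω ρ b h2]
        exact pow_shift ω hω j
      · have h2 : ¬ Adj ρ b (.blk i' true j' a' : Pos N Δ) (.blk i true (j + 2) a) := h
        rw [wt_zero ω ρ b h, wt_zero ω ρ b h2, zero_mul]
  · have hB : ¬ (isB (.host i' l' : Pos N Δ) = true) := by simp [isB]
    rw [if_neg hB, mul_one]
    by_cases h : Adj ρ b (.host i' l' : Pos N Δ) (.blk i true j a)
    · have h2 : Adj ρ b (.host i' l' : Pos N Δ) (.blk i true (j + 2) a) := h
      rw [wt_pos ω ρ b h, wt_pos ω ρ b h2]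
      rfl
    · have h2 : ¬ Adj ρ b (.host i' l' : Pos N Δ) (.blk i true (j + 2) a) := h
      rw [wt_zero ω ρ b h, wt_zero ω ρ b h2]
  · have h : ¬ Adj ρ b (.dum δ' : Pos N Δ) (.blk i true j a) := fun h => h
    have h2 : ¬ Adj ρ b (.dum δ' : Pos N Δ) (.blk i true (j + 2) a) := fun h => h
    rw [wt_zero ω ρ b h, wt_zero ω ρ b h2, zero_mul]

lemma pow_cnt (s : Bool) (i : Fin N) (a : Fin 4) (σ : Equiv.Perm (Pos N Δ)) :
    ∏ x : Pos N Δ, (if (∃ j, x = .blk i s j a) ∧ isB (part s σ x) = true then ω else 1)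
      = ω ^ cnt s i a σ := by
  classical
  rw [Finset.prod_ite, Finset.prod_const, Finset.prod_const_one, mul_one]
  congr 1
  unfold cnt
  symm
  refine Finset.card_bij (fun j _ => .blk i s j a) ?_ ?_ ?_
  · intro j hj
    rw [Finset.mem_filter] at hj ⊢
    exact ⟨Finset.mem_univ _, ⟨j, rfl⟩, hj.2⟩
  · intro j _ j' _ e
    simp only [Pos.blk.injEq] at e
    exact e.2.2.1
  · intro x hx
    rw [Finset.mem_filter] at hx
    obtain ⟨_, ⟨j, rfl⟩, h⟩ := hx
    exact ⟨j, Finset.mem_filter.mpr ⟨Finset.mem_univ _, h⟩, rfl⟩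

include hω in
lemma term_tr (s : Bool) (i : Fin N) (a : Fin 4) (σ : Equiv.Perm (Pos N Δ)) :
    term ω ρ b (tr s i a σ) * ω ^ cnt s i a σ = term ω ρ b σ := by
  classical
  rw [← pow_cnt ω s i a σ]
  cases s
  · show (∏ x, wt ω ρ b x (σ (rot false i a x))) * _ = ∏ x, wt ω ρ b x (σ x)
    have h1 : ∏ x : Pos N Δ, wt ω ρ b x (σ (rot false i a x))
        = ∏ y : Pos N Δ, wt ω ρ b ((rot false i a).symm y) (σ y) := by
      rw [← Equiv.prod_comp (rot false i a) (fun y => wt ω ρ b ((rot false i a).symm y) (σ y))]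
      simp
    rw [h1, ← Finset.prod_mul_distrib]
    refine Finset.prod_congr rfl (fun y _ => ?_)
    by_cases hy : ∃ j, y = .blk i false j a
    · obtain ⟨j, rfl⟩ := hy
      rw [rot_symm_blk]
      have h2 : (if (∃ j', (Pos.blk i false j a : Pos N Δ) = .blk i false j' a)
          ∧ isB (part false σ (.blk i false j a)) = true then ω else 1)
          = if isB (σ (.blk i false j a)) then ω else 1 := by
        have h3 : (∃ j', (Pos.blk i false j a : Pos N Δ) = .blk i false j' a) := ⟨j, rfl⟩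
        simp only [h3, true_and]
        rfl
      rw [h2]
      exact wt_rot_row ω hω ρ b i a j _
    · rw [if_neg (fun h => hy h.1), mul_one, rot_symm_ne _ _ _ _ (fun j h => hy ⟨j, h⟩)]
  · show (∏ x, wt ω ρ b x ((rot true i a).symm (σ x))) * _ = ∏ x, wt ω ρ b x (σ x)
    rw [← Equiv.prod_comp σ (fun x => if (∃ j, x = .blk i true j a) ∧ isB (part true σ x) = true
      then ω else 1), ← Finset.prod_mul_distrib]
    refine Finset.prod_congr rfl (fun x _ => ?_)
    by_cases hy : ∃ j, σ x = .blk i true j a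
    · obtain ⟨j, hj⟩ := hy
      rw [hj, rot_symm_blk]
      have h2 : (if (∃ j', (Pos.blk i true j a : Pos N Δ) = .blk i true j' a)
          ∧ isB (part true σ (.blk i true j a)) = true then ω else 1)
          = if isB x then ω else 1 := by
        have h3 : (∃ j', (Pos.blk i true j a : Pos N Δ) = .blk i true j' a) := ⟨j, rfl⟩
        have h4 : part true σ (.blk i true j a) = x := by
          show σ.symm (.blk i true j a) = x
          rw [← hj, Equiv.symm_apply_apply]
        simp only [h3, true_and, h4]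
      rw [h2]
      exact wt_rot_col ω hω ρ b i a j x
    · rw [if_neg (fun h => hy h.1), mul_one, rot_symm_ne _ _ _ _ (fun j h => hy ⟨j, h⟩)]

end weights

/-- cancellation of the terms with a count not divisible by 3 -/
lemma cancel {P : Type} [Fintype P] (ω : L) (hω : ω ^ 3 = 1) (hω1 : ω ≠ 1) (w F : P → L) (m : P → ℕ)
    (T : P ≃ P) (hm : ∀ σ, m (T σ) = m σ) (hF : ∀ σ, F (T σ) = F σ)
    (hw : ∀ σ, w (T σ) * ω ^ m σ = w σ) :
    ∑ σ, w σ * F σ = ∑ σ, if 3 ∣ m σ then w σ * F σ else 0 := by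
  classical
  have hpow : ∀ n, ω ^ n = ω ^ (n % 3) := by
    intro n
    conv_lhs => rw [← Nat.div_add_mod n 3, pow_add, pow_mul, hω, one_pow, one_mul]
  have hr : ∀ r, ω ^ r ≠ 1 → ∑ σ, (if m σ % 3 = r then w σ * F σ else 0) = 0 := by
    intro r hr
    have h1 : ω ^ r * ∑ σ, (if m σ % 3 = r then w σ * F σ else 0)
        = ∑ σ, (if m σ % 3 = r then w σ * F σ else 0) := by
      calc ω ^ r * ∑ σ, (if m σ % 3 = r then w σ * F σ else 0)
          = ω ^ r * ∑ σ, (if m (T σ) % 3 = r then w (T σ) * F (T σ) else 0) := by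
            rw [Equiv.sum_comp T (fun σ => if m σ % 3 = r then w σ * F σ else 0)]
        _ = ∑ σ, ω ^ r * (if m (T σ) % 3 = r then w (T σ) * F (T σ) else 0) := Finset.mul_sum _ _ _
        _ = ∑ σ, (if m σ % 3 = r then w σ * F σ else 0) := by
            refine Finset.sum_congr rfl (fun σ _ => ?_)
            rw [hm, hF]
            by_cases h : m σ % 3 = r
            · rw [if_pos h, if_pos h]
              have h2 := hw σ
              rw [hpow (m σ), h] at h2
              rw [← h2]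
              ring
            · rw [if_neg h, if_neg h, mul_zero]
    have h2 : (ω ^ r - 1) * ∑ σ, (if m σ % 3 = r then w σ * F σ else 0) = 0 := by
      rw [sub_mul, h1, one_mul, sub_self]
    rcases mul_eq_zero.mp h2 with h3 | h3
    · exact absurd (sub_eq_zero.mp h3) hr
    · exact h3
  have h1 := hr 1 (by rwa [pow_one])
  have h2 := hr 2 (by
    intro h
    apply hω1
    have : ω ^ 3 = ω ^ 2 * ω := by ring
    rw [this, h, one_mul] at hω
    exact hω)
  have h3 : ∀ σ, w σ * F σ = (if 3 ∣ m σ then w σ * F σ else 0)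
      + (if m σ % 3 = 1 then w σ * F σ else 0) + (if m σ % 3 = 2 then w σ * F σ else 0) := by
    intro σ
    have h4 : m σ % 3 = 0 ∨ m σ % 3 = 1 ∨ m σ % 3 = 2 := by omega
    rcases h4 with h | h | h
    · rw [if_pos (Nat.dvd_of_mod_eq_zero h), if_neg (by omega), if_neg (by omega), add_zero, add_zero]
    · rw [if_neg (by omega), if_pos h, if_neg (by omega), add_zero, zero_add]
    · rw [if_neg (by omega), if_neg (by omega), if_pos h, add_zero, zero_add]
  rw [Finset.sum_congr rfl (fun σ _ => h3 σ), Finset.sum_add_distrib, Finset.sum_add_distrib, h1, h2,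
    add_zero, add_zero]

/-- the permutations all of whose counts are divisible by three -/
def Good3 (σ : Equiv.Perm (Pos N Δ)) : Prop := ∀ s i a, 3 ∣ cnt s i a σ

open Classical in
/-- **First step**: only good permutations contribute. -/
theorem sum_good (ω : L) (hω : ω ^ 3 = 1) (hω1 : ω ≠ 1) (ρ : Fin 3 → Equiv.Perm (Fin N))
    (b : Fin N → Fin 3 → ZMod 2) :
    ∑ σ : Equiv.Perm (Pos N Δ), term ω ρ b σ
      = ∑ σ : Equiv.Perm (Pos N Δ), if Good3 σ then term ω ρ b σ else 0 := by
  have key : ∀ A : Finset (Bool × Fin N × Fin 4), ∑ σ : Equiv.Perm (Pos N Δ), term ω ρ b σ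
      = ∑ σ : Equiv.Perm (Pos N Δ), term ω ρ b σ *
        (if ∀ v ∈ A, 3 ∣ cnt v.1 v.2.1 v.2.2 σ then 1 else 0) := by
    intro A
    induction A using Finset.induction_on with
    | empty => simp
    | insert v A _ ih =>
      rw [ih, cancel ω hω hω1 (term ω ρ b)
        (fun σ => if ∀ v ∈ A, 3 ∣ cnt v.1 v.2.1 v.2.2 σ then 1 else 0)
        (cnt v.1 v.2.1 v.2.2) (tr v.1 v.2.1 v.2.2) (fun σ => cnt_tr _ _ _ _ _ _ _)
        (by
          intro σ
          simp only [cnt_tr])
        (fun σ => term_tr ω hω ρ b _ _ _ σ)]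
      refine Finset.sum_congr rfl (fun σ _ => ?_)
      simp only [Finset.forall_mem_insert]
      by_cases h1 : 3 ∣ cnt v.1 v.2.1 v.2.2 σ
      · simp only [h1, true_and, if_true]
      · simp only [h1, false_and, if_false, mul_zero]
  rw [key univ]
  refine Finset.sum_congr rfl (fun σ _ => ?_)
  have : (∀ v ∈ (univ : Finset (Bool × Fin N × Fin 4)), 3 ∣ cnt v.1 v.2.1 v.2.2 σ) ↔ Good3 σ :=
    ⟨fun h s i a => h (s, i, a) (Finset.mem_univ _), fun h v _ => h v.1 v.2.1 v.2.2⟩
  simp only [this]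
  split_ifs
  · rw [mul_one]
  · rw [mul_zero]

end H522R2.LS
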