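import Pool.Agent.H522R2.LS.PerEval

/-!
The permanents of the untwisted and of the twisted matrices.
-/

namespace H522R2.LS

open Finset BigOperators

set_option linter.unusedSectionVars false

variable {N : ℕ} {Δ : Type} [Fintype Δ] [DecidableEq Δ] {L : Type} [Field L]

lemma three : ∀ p : Fin 3 → Bool, 3 ∣ (univ.filter (fun j => p j = true)).card →
    (∀ j, p j = true) ∨ (∀ j, p j = false) := by decide

lemma good_cases {σ : Equiv.Perm (Pos N Δ)} (h : Good3 σ) (s : Bool) (i : Fin N) (a : Fin 4) :
    (∀ j, isB (part s σ (.blk i s j a)) = true) ∨ (∀ j, isB (part s σ (.blk i s j a)) = false) :=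
  three _ (h s i a)

lemma prod_site (s : Bool) (f : Pos N Δ → L) (hf : ∀ x, (∀ i j a, x ≠ .blk i s j a) → f x = 1) :
    ∏ x, f x = ∏ v : Fin N × Fin 4, ∏ j, f (.blk v.1 s j v.2) := by
  classical
  symm
  rw [← Fintype.prod_prod_type (f := fun w : (Fin N × Fin 4) × Fin 3 => f (.blk w.1.1 s w.2 w.1.2))]
  rw [← Finset.prod_image (s := univ)
    (g := fun w : (Fin N × Fin 4) × Fin 3 => (Pos.blk w.1.1 s w.2 w.1.2 : Pos N Δ)) (f := f)]
  · exact Finset.prod_subset (Finset.subset_univ _) (fun x _ hx => hf x (fun i j a h =>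
      hx (Finset.mem_image.mpr ⟨((i, a), j), Finset.mem_univ _, h.symm⟩)))
  · rintro ⟨⟨i, a⟩, j⟩ _ ⟨⟨i', a'⟩, j'⟩ _ h
    simp only [Pos.blk.injEq] at h
    obtain ⟨h1, _, h2, h3⟩ := h
    rw [h1, h2, h3]

/-- row factor -/
noncomputable def Uf (ω : L) (ρ : Fin 3 → Equiv.Perm (Fin N)) (b : Fin N → Fin 3 → ZMod 2)
    (x z : Pos N Δ) : L := match x with
  | .blk _ false _ _ => wt ω ρ b x z
  | _ => 1

/-- column factor -/
noncomputable def Vf (ω : L) (ρ : Fin 3 → Equiv.Perm (Fin N)) (b : Fin N → Fin 3 → ZMod 2)
    (x z : Pos N Δ) : L := match z with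
  | .blk _ true _ _ => wt ω ρ b x z
  | _ => 1

lemma wt_split (ω : L) (ρ : Fin 3 → Equiv.Perm (Fin N)) (b : Fin N → Fin 3 → ZMod 2)
    (x z : Pos N Δ) (h : Adj ρ b x z) : wt ω ρ b x z = Uf ω ρ b x z * Vf ω ρ b x z := by
  rcases x with ⟨i, s, j, a⟩ | ⟨i, l⟩ | δ <;> rcases z with ⟨i', s', j', a'⟩ | ⟨i', l'⟩ | δ'
  · rcases s with _ | _ <;> rcases s' with _ | _
    · exact (mul_one _).symm
    · exact absurd h (fun h => h)
    · rw [wt_pos ω ρ b h]
      show ω ^ 0 = 1 * 1
      rw [pow_zero, one_mul]
    · exact (one_mul _).symm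
  · cases s
    · exact (mul_one _).symm
    · exact absurd h (fun h => h)
  · cases s <;> exact absurd h (fun h => h)
  · cases s'
    · exact absurd h (fun h => h)
    · exact (one_mul _).symm
  · rw [wt_pos ω ρ b h]
    show ω ^ 0 = 1 * 1
    rw [pow_zero, one_mul]
  · exact absurd h (fun h => h)
  · cases s' <;> exact absurd h (fun h => h)
  · exact absurd h (fun h => h)
  · rw [wt_pos ω ρ b h]
    show ω ^ 0 = 1 * 1
    rw [pow_zero, one_mul]

/-- good permutations have weight 1 -/
lemma term_one (ω : L) (hω : ω ^ 3 = 1) (ρ : Fin 3 → Equiv.Perm (Fin N))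
    (b : Fin N → Fin 3 → ZMod 2) (σ : Equiv.Perm (Pos N Δ)) (hg : Good3 σ)
    (hA : ∀ x, Adj ρ b x (σ x)) : term ω ρ b σ = 1 := by
  have h012 : ∏ j : Fin 3, ω ^ (j : ℕ) = 1 := by
    rw [Fin.prod_univ_three]
    show ω ^ 0 * ω ^ 1 * ω ^ 2 = 1
    rw [← pow_add, ← pow_add, hω]
  unfold term
  rw [Finset.prod_congr rfl (fun x _ => wt_split ω ρ b x (σ x) (hA x)), Finset.prod_mul_distrib]
  have hU : ∏ x, Uf ω ρ b x (σ x) = 1 := by
    rw [prod_site false (fun x => Uf ω ρ b x (σ x))]
    · refine Finset.prod_eq_one (fun v _ => ?_)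
      rcases good_cases hg false v.1 v.2 with h | h
      · rw [← h012]
        refine Finset.prod_congr rfl (fun j _ => ?_)
        have h1 : isB (σ (.blk v.1 false j v.2)) = true := h j
        have h2 := hA (.blk v.1 false j v.2)
        show wt ω ρ b (.blk v.1 false j v.2) (σ (.blk v.1 false j v.2)) = _
        rw [wt_pos ω ρ b h2]
        rcases hz : σ (.blk v.1 false j v.2) with ⟨i', s', j', a'⟩ | ⟨i', l'⟩ | δ'
        · rw [hz] at h2
          cases s'
          · rfl
          · exact absurd h2 (fun h => h)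
        · rw [hz] at h1; exact absurd h1 (by simp [isB])
        · rw [hz] at h1; exact absurd h1 (by simp [isB])
      · refine Finset.prod_eq_one (fun j _ => ?_)
        have h1 : isB (σ (.blk v.1 false j v.2)) = false := h j
        have h2 := hA (.blk v.1 false j v.2)
        show wt ω ρ b (.blk v.1 false j v.2) (σ (.blk v.1 false j v.2)) = _
        rw [wt_pos ω ρ b h2]
        rcases hz : σ (.blk v.1 false j v.2) with ⟨i', s', j', a'⟩ | ⟨i', l'⟩ | δ'
        · rw [hz] at h1; exact absurd h1 (by simp [isB])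
        · exact pow_zero _
        · rw [hz] at h2; exact absurd h2 (fun h => h)
    · intro x hx
      rcases x with ⟨i, s, j, a⟩ | ⟨i, l⟩ | δ
      · cases s
        · exact absurd rfl (hx i j a)
        · rfl
      · rfl
      · rfl
  have hV : ∏ x, Vf ω ρ b x (σ x) = 1 := by
    have h0 : ∏ x, Vf ω ρ b x (σ x) = ∏ z, Vf ω ρ b (σ.symm z) z := by
      rw [← Equiv.prod_comp σ (fun z => Vf ω ρ b (σ.symm z) z)]
      simp
    have hA' : ∀ z, Adj ρ b (σ.symm z) z := by
      intro z
      have := hA (σ.symm z)
      rwa [Equiv.apply_symm_apply] at this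
    rw [h0, prod_site true (fun z => Vf ω ρ b (σ.symm z) z)]
    · refine Finset.prod_eq_one (fun v _ => ?_)
      rcases good_cases hg true v.1 v.2 with h | h
      · rw [← h012]
        refine Finset.prod_congr rfl (fun j _ => ?_)
        have h1 : isB (σ.symm (.blk v.1 true j v.2)) = true := h j
        have h2 := hA' (.blk v.1 true j v.2)
        show wt ω ρ b (σ.symm (.blk v.1 true j v.2)) (.blk v.1 true j v.2) = _
        rw [wt_pos ω ρ b h2]
        rcases hz : σ.symm (.blk v.1 true j v.2) with ⟨i', s', j', a'⟩ | ⟨i', l'⟩ | δ'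
        · rw [hz] at h2
          cases s'
          · exact absurd h2 (fun h => h)
          · rfl
        · rw [hz] at h1; exact absurd h1 (by simp [isB])
        · rw [hz] at h1; exact absurd h1 (by simp [isB])
      · refine Finset.prod_eq_one (fun j _ => ?_)
        have h1 : isB (σ.symm (.blk v.1 true j v.2)) = false := h j
        have h2 := hA' (.blk v.1 true j v.2)
        show wt ω ρ b (σ.symm (.blk v.1 true j v.2)) (.blk v.1 true j v.2) = _
        rw [wt_pos ω ρ b h2]
        rcases hz : σ.symm (.blk v.1 true j v.2) with ⟨i', s', j', a'⟩ | ⟨i', l'⟩ | δ'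
        · rw [hz] at h1; exact absurd h1 (by simp [isB])
        · exact pow_zero _
        · rw [hz] at h2; exact absurd h2 (fun h => h)
    · intro x hx
      rcases x with ⟨i, s, j, a⟩ | ⟨i, l⟩ | δ
      · cases s
        · rfl
        · exact absurd rfl (hx i j a)
      · rfl
      · rfl
  rw [hU, hV, one_mul]

lemma term_zero (ω : L) (ρ : Fin 3 → Equiv.Perm (Fin N))
    (b : Fin N → Fin 3 → ZMod 2) (σ : Equiv.Perm (Pos N Δ)) (hA : ¬ ∀ x, Adj ρ b x (σ x)) :
    term ω ρ b σ = 0 := by
  push Not at hA
  obtain ⟨x, hx⟩ := hA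
  exact Finset.prod_eq_zero (Finset.mem_univ x) (wt_zero ω ρ b hx)

lemma inj_zero : ∀ f : Fin 3 → Fin 4, Function.Injective f → (∀ j, f j ≠ 3) → ∃ j, f j = 0 := by
  decide

/-- consistency: a good permutation in the support forces the total twist to vanish -/
lemma no_twist (ρ : Fin 3 → Equiv.Perm (Fin N)) (b : Fin N → Fin 3 → ZMod 2)
    (σ : Equiv.Perm (Pos N Δ)) (hg : Good3 σ) (hA : ∀ x, Adj ρ b x (σ x)) :
    ∑ i, ∑ t, b i t = 0 := by
  have hA' : ∀ z, Adj ρ b (σ.symm z) z := by
    intro z
    have := hA (σ.symm z)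
    rwa [Equiv.apply_symm_apply] at this
  have hu : ∀ i, ∃ a : Fin 4, ∀ j, isB (σ (.blk i false j a)) = false := by
    intro i
    have h1 := hA' (.host i 0)
    rcases hx : σ.symm (.host i 0) with ⟨i', s', j', a'⟩ | ⟨i', l'⟩ | δ'
    · rw [hx] at h1
      cases s'
      · obtain ⟨rfl, _⟩ := h1
        refine ⟨a', ?_⟩
        rcases good_cases hg false i' a' with h | h
        · exfalso
          have h2 : isB (σ (.blk i' false j' a')) = true := h j'
          rw [← hx, Equiv.apply_symm_apply] at h2
          exact absurd h2 (by simp [isB])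
        · exact h
      · exact absurd h1 (fun h => h)
    · rw [hx] at h1
      exact absurd h1.2.2 (by decide)
    · rw [hx] at h1
      exact absurd h1 (fun h => h)
  have hv : ∀ i, ∃ c : Fin 4, ∀ t a', (∃ i'' t'' a'', σ (.blk i true t a') = .blk i'' false t'' a'') →
      a' = c := by
    intro i
    have h1 := hA (.host i 0)
    rcases hz : σ (.host i 0) with ⟨i', s', j', c⟩ | ⟨i', l'⟩ | δ'
    · rw [hz] at h1
      cases s'
      · exact absurd h1 (fun h => h)
      · obtain ⟨rfl, _⟩ := h1
        refine ⟨c, ?_⟩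
        rintro t a' ⟨i'', t'', a'', hσ⟩
        rcases good_cases hg true i a' with h | h
        · -- all partners are gadget rows
          exfalso
          have h2 : ∀ j, ∃ g : Fin 3, σ.symm (.blk i true j a') = .blk i true g a' := by
            intro j
            have h3 := hA' (.blk i true j a')
            have h4 : isB (σ.symm (.blk i true j a')) = true := h j
            rcases hx : σ.symm (.blk i true j a') with ⟨i1, s1, j1, a1⟩ | ⟨i1, l1⟩ | δ1
            · rw [hx] at h3
              cases s1
              · exact absurd h3 (fun h => h)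
              · obtain ⟨rfl, rfl⟩ := h3
                exact ⟨j1, rfl⟩
            · rw [hx] at h4; exact absurd h4 (by simp [isB])
            · rw [hx] at h4; exact absurd h4 (by simp [isB])
          choose g hgg using h2
          have hinj : Function.Injective g := by
            intro j1 j2 e
            have h5 : σ.symm (.blk i true j1 a') = σ.symm (.blk i true j2 a') := by
              rw [hgg j1, hgg j2, e]
            have h6 := σ.symm.injective h5
            simp only [Pos.blk.injEq] at h6
            exact h6.2.2.1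
          obtain ⟨j, hj⟩ := (Finite.injective_iff_surjective.mp hinj) t
          have h7 := hgg j
          rw [hj, Equiv.symm_apply_eq, hσ] at h7
          simp at h7
        · -- all partners are host rows
          have h2 : ∀ j, ∃ f : Fin 4, f ≠ 3 ∧ σ.symm (.blk i true j a') = .host i f := by
            intro j
            have h3 := hA' (.blk i true j a')
            have h4 : isB (σ.symm (.blk i true j a')) = false := h j
            rcases hx : σ.symm (.blk i true j a') with ⟨i1, s1, j1, a1⟩ | ⟨i1, l1⟩ | δ1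
            · rw [hx] at h4; exact absurd h4 (by simp [isB])
            · rw [hx] at h3
              obtain ⟨rfl, h5⟩ := h3
              exact ⟨l1, h5, rfl⟩
            · rw [hx] at h3; exact absurd h3 (fun h => h)
          choose f hf3 hf using h2
          have hinj : Function.Injective f := by
            intro j1 j2 e
            have h5 : σ.symm (.blk i true j1 a') = σ.symm (.blk i true j2 a') := by
              rw [hf j1, hf j2, e]
            have h6 := σ.symm.injective h5
            simp only [Pos.blk.injEq] at h6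
            exact h6.2.2.1
          obtain ⟨j, hj⟩ := inj_zero f hinj hf3
          have h7 := hf j
          rw [hj, Equiv.symm_apply_eq, hz] at h7
          simp only [Pos.blk.injEq] at h7
          exact h7.2.2.2
    · rw [hz] at h1
      exact absurd h1.2.1 (by decide)
    · rw [hz] at h1
      exact absurd h1 (fun h => h)
  choose au hau using hu
  choose cv hcv using hv
  have hkey : ∀ i t, lab (au i) t + b i t = lab (cv (ρ t i)) t := by
    intro i t
    have h1 := hA' (.blk i false t (au i))
    rcases hx : σ.symm (.blk i false t (au i)) with ⟨i', s', j', a'⟩ | ⟨i', l'⟩ | δ'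
    · rw [hx] at h1
      cases s'
      · obtain ⟨rfl, rfl⟩ := h1
        exfalso
        have h2 := hau i' j'
        rw [← hx, Equiv.apply_symm_apply] at h2
        exact absurd h2 (by simp [isB])
      · obtain ⟨rfl, rfl, h2⟩ := h1
        rw [h2]
        have h3 : a' = cv (ρ j' i) := by
          apply hcv (ρ j' i) j' a'
          refine ⟨i, j', au i, ?_⟩
          rw [← hx, Equiv.apply_symm_apply]
        rw [h3]
    · rw [hx] at h1
      exact absurd h1 (fun h => h)
    · rw [hx] at h1
      exact absurd h1 (fun h => h)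
  have h1 : ∑ i, ∑ t, (lab (au i) t + b i t) = ∑ i, ∑ t, lab (cv (ρ t i)) t :=
    Finset.sum_congr rfl (fun i _ => Finset.sum_congr rfl (fun t _ => hkey i t))
  have h2 : ∑ i, ∑ t, lab (cv (ρ t i)) t = 0 := by
    rw [Finset.sum_comm]
    have h3 : ∀ t, ∑ i, lab (cv (ρ t i)) t = ∑ i, lab (cv i) t :=
      fun t => Equiv.sum_comp (ρ t) (fun i => lab (cv i) t)
    rw [Finset.sum_congr rfl (fun t _ => h3 t), Finset.sum_comm]
    exact Finset.sum_eq_zero (fun i _ => lab_sum (cv i))
  rw [h2] at h1
  simp only [Finset.sum_add_distrib] at h1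
  rw [Finset.sum_eq_zero (fun i _ => lab_sum (au i)), zero_add] at h1
  exact h1

/-- **The twisted permanent vanishes.** -/
theorem per_twisted (ω : L) (hω : ω ^ 3 = 1) (hω1 : ω ≠ 1) (ρ : Fin 3 → Equiv.Perm (Fin N))
    (b : Fin N → Fin 3 → ZMod 2) (hb : ∑ i, ∑ t, b i t ≠ 0) :
    ∑ σ : Equiv.Perm (Pos N Δ), term ω ρ b σ = 0 := by
  rw [sum_good ω hω hω1]
  refine Finset.sum_eq_zero (fun σ _ => ?_)
  split_ifs with hg
  · apply term_zero
    intro hA
    exact hb (no_twist ρ b σ hg hA)
  · rfl

def up : Fin 3 → Fin 4 := ![0, 1, 2]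
def dn : Fin 4 → Fin 3 := ![0, 1, 2, 0]

lemma up_ne : ∀ j, up j ≠ 3 := by decide
lemma dn_up : ∀ j, dn (up j) = j := by decide
lemma up_dn : ∀ l, l ≠ 3 → up (dn l) = l := by decide

/-- the basic matching -/
def sig0 (ρ : Fin 3 → Equiv.Perm (Fin N)) : Equiv.Perm (Pos N Δ) where
  toFun x := match x with
    | .blk i false j a => if a = 0 then .host i (up j) else .blk i false j a
    | .blk i true t a => if a = 0 then .blk ((ρ t).symm i) false t 0 else .blk i true t a
    | .host i l => if l = 3 then .host i 3 else .blk i true (dn l) 0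
    | .dum δ => .dum δ
  invFun x := match x with
    | .blk i false t a => if a = 0 then .blk (ρ t i) true t 0 else .blk i false t a
    | .blk i true j a => if a = 0 then .host i (up j) else .blk i true j a
    | .host i l => if l = 3 then .host i 3 else .blk i false (dn l) 0
    | .dum δ => .dum δ
  left_inv x := by
    rcases x with ⟨i, s, j, a⟩ | ⟨i, l⟩ | δ
    · cases s
      · by_cases h : a = 0
        · subst h
          simp [up_ne, dn_up]
        · simp [h]
      · by_cases h : a = 0
        · subst h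
          simp
        · simp [h]
    · by_cases h : l = 3
      · subst h; simp
      · simp [h, up_dn l h]
    · rfl
  right_inv x := by
    rcases x with ⟨i, s, j, a⟩ | ⟨i, l⟩ | δ
    · cases s
      · by_cases h : a = 0
        · subst h
          simp
        · simp [h]
      · by_cases h : a = 0
        · subst h
          simp [up_ne, dn_up]
        · simp [h]
    · by_cases h : l = 3
      · subst h; simp
      · simp [h, up_dn l h]
    · rfl

lemma sig0_adj (ρ : Fin 3 → Equiv.Perm (Fin N)) (x : Pos N Δ) :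
    Adj ρ (fun _ _ => 0) x (sig0 ρ x) := by
  rcases x with ⟨i, s, j, a⟩ | ⟨i, l⟩ | δ
  · cases s
    · by_cases h : a = 0
      · have : sig0 ρ (.blk i false j a : Pos N Δ) = .host i (up j) := by simp [sig0, h]
        rw [this]
        exact ⟨rfl, up_ne j⟩
      · have : sig0 ρ (.blk i false j a : Pos N Δ) = .blk i false j a := by simp [sig0, h]
        rw [this]
        exact ⟨rfl, rfl⟩
    · by_cases h : a = 0
      · have : sig0 ρ (.blk i true j a : Pos N Δ) = .blk ((ρ j).symm i) false j 0 := by simp [sig0, h]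
        rw [this, h]
        exact ⟨rfl, by simp, by simp⟩
      · have : sig0 ρ (.blk i true j a : Pos N Δ) = .blk i true j a := by simp [sig0, h]
        rw [this]
        exact ⟨rfl, rfl⟩
  · by_cases h : l = 3
    · have : sig0 ρ (.host i l : Pos N Δ) = .host i 3 := by simp [sig0, h]
      rw [this, h]
      exact ⟨rfl, rfl, rfl⟩
    · have : sig0 ρ (.host i l : Pos N Δ) = .blk i true (dn l) 0 := by simp [sig0, h]
      rw [this]
      exact ⟨rfl, h⟩
  · exact rfl

lemma sig0_good (ρ : Fin 3 → Equiv.Perm (Fin N)) : Good3 (sig0 ρ : Equiv.Perm (Pos N Δ)) := by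
  intro s i a
  unfold cnt
  by_cases h : a = 0
  · have : (univ.filter (fun j : Fin 3 => isB (part s (sig0 ρ) (.blk i s j a : Pos N Δ)) = true)) = ∅ := by
      apply Finset.filter_false_of_mem
      intro j _
      cases s
      · show ¬ isB (sig0 ρ (.blk i false j a : Pos N Δ)) = true
        have : sig0 ρ (.blk i false j a : Pos N Δ) = .host i (up j) := by simp [sig0, h]
        rw [this]; simp [isB]
      · show ¬ isB ((sig0 ρ).symm (.blk i true j a : Pos N Δ)) = true
        have : (sig0 ρ).symm (.blk i true j a : Pos N Δ) = .host i (up j) := by simp [sig0, h]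
        rw [this]; simp [isB]
    rw [this]; simp
  · have : (univ.filter (fun j : Fin 3 => isB (part s (sig0 ρ) (.blk i s j a : Pos N Δ)) = true)) = univ := by
      apply Finset.filter_true_of_mem
      intro j _
      cases s
      · show isB (sig0 ρ (.blk i false j a : Pos N Δ)) = true
        have : sig0 ρ (.blk i false j a : Pos N Δ) = .blk i false j a := by simp [sig0, h]
        rw [this]; rfl
      · show isB ((sig0 ρ).symm (.blk i true j a : Pos N Δ)) = true
        have : (sig0 ρ).symm (.blk i true j a : Pos N Δ) = .blk i true j a := by simp [sig0, h]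
        rw [this]; rfl
    rw [this]; simp

/-- **The untwisted permanent does not vanish.** -/
theorem per_untwisted [CharZero L] (ω : L) (hω : ω ^ 3 = 1) (hω1 : ω ≠ 1)
    (ρ : Fin 3 → Equiv.Perm (Fin N)) :
    ∑ σ : Equiv.Perm (Pos N Δ), term ω ρ (fun _ _ => 0) σ ≠ 0 := by
  classical
  rw [sum_good ω hω hω1]
  have h : ∀ σ : Equiv.Perm (Pos N Δ), (if Good3 σ then term ω ρ (fun _ _ => 0) σ else 0)
      = if Good3 σ ∧ ∀ x, Adj ρ (fun _ _ => 0) x (σ x) then 1 else 0 := by
    intro σ
    by_cases h1 : Good3 σ
    · rw [if_pos h1]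
      by_cases h2 : ∀ x, Adj ρ (fun _ _ => 0) x (σ x)
      · rw [if_pos ⟨h1, h2⟩, term_one ω hω ρ _ σ h1 h2]
      · rw [if_neg (fun h => h2 h.2), term_zero ω ρ _ σ h2]
    · rw [if_neg h1, if_neg (fun h => h1 h.1)]
  rw [Finset.sum_congr rfl (fun σ _ => h σ), Finset.sum_boole, Nat.cast_ne_zero, Finset.card_ne_zero]
  exact ⟨sig0 ρ, Finset.mem_filter.mpr ⟨Finset.mem_univ _, sig0_good ρ, sig0_adj ρ⟩⟩

end H522R2.LS
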